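import Mathlib

/-!
# Online safe positions: the game with hints on all pairs of players
-/

set_option autoImplicit false

namespace Pool.Agent.Lib.MP_994fee_co.Pair

open Finset

variable {C : Type}

/-- The colour `a` is safe for the bad set `F`, when the hints with index `< t` are still to be
chosen (after a list `L` of the opponent a set `J ⊇ L × {a}` is chosen) and the other hints are
`σ`. -/
def Safe (m : ℕ) (F : (ℕ → Finset (C × C)) → Set C) (a : C) : ℕ → (ℕ → Finset (C × C)) → Prop
  | 0, σ => a ∉ F σ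
  | t + 1, σ => ∀ L : Finset C, L.card ≤ m → ∃ J : Finset (C × C), (∀ b ∈ L, (b, a) ∈ J) ∧
      J.card ≤ m * m ∧ Safe m F a t (Function.update σ t J)

/-- The dichotomy: every list that cannot be covered by a value of `F` has a safe element. -/
lemma exists_safe [DecidableEq C] (m : ℕ) (F : (ℕ → Finset (C × C)) → Set C) (L₀ : Finset C)
    (hL₀ : L₀.card ≤ m) (hF : ∀ σ, ∃ a ∈ L₀, a ∉ F σ) :
    ∀ (t : ℕ) (σ : ℕ → Finset (C × C)), ∃ a ∈ L₀, Safe m F a t σ := by
  intro t
  induction t with
  | zero => exact hF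
  | succ t ih =>
    intro σ
    by_contra hcon
    have h1 : ∀ a, ∃ L : Finset C, a ∈ L₀ → L.card ≤ m ∧ ∀ J : Finset (C × C),
        (∀ b ∈ L, (b, a) ∈ J) → J.card ≤ m * m →
          ¬ Safe m F a t (Function.update σ t J) := by
      intro a
      by_cases ha : a ∈ L₀
      · have h2 : ¬ Safe m F a (t + 1) σ := fun h => hcon ⟨a, ha, h⟩
        rw [Safe] at h2
        push Not at h2
        obtain ⟨L, hL, h3⟩ := h2
        exact ⟨L, fun _ => ⟨hL, h3⟩⟩
      · exact ⟨∅, fun h => absurd h ha⟩
    choose L hL using h1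
    let f : C → Finset (C × C) := fun a => (L a).image (fun b => (b, a))
    obtain ⟨a, ha, hs⟩ := ih (Function.update σ t (L₀.biUnion f))
    refine (hL a ha).2 (L₀.biUnion f) ?_ ?_ hs
    · intro b hb
      exact Finset.mem_biUnion.2 ⟨a, ha, Finset.mem_image_of_mem _ hb⟩
    · calc (L₀.biUnion f).card ≤ ∑ a ∈ L₀, (f a).card := Finset.card_biUnion_le
        _ ≤ ∑ _a ∈ L₀, m :=
            Finset.sum_le_sum (fun a ha => le_trans Finset.card_image_le (hL a ha).1)
        _ = L₀.card * m := by rw [Finset.sum_const, smul_eq_mul]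
        _ ≤ m * m := Nat.mul_le_mul_right _ hL₀

/-- What the player `v` sees of the pairs `(v, u)` with `v < u`. -/
def high (J : ℕ → ℕ → Finset (C × C)) (v : ℕ) : ℕ → Finset (C × C) :=
  fun u => if v < u then J v u else ∅

/-- **Pair hints cost nothing.** Players `0, ..., N - 1`, scenarios `κ ∈ R`. In the scenario `κ`
the colours on which the player `v` guesses right are the set `Bad κ v ℓ low high`, where `ℓ` is a
hint on `v` and the hint on the pair `w < v` is `J w v`. There is one choice of colours `γ`, and in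
every scenario a choice of small hints with `γ v ∈ L v` and `(γ w, γ v) ∈ J w v`, with which
everybody guesses wrong. -/
theorem lemmaA {K : Type} (m N : ℕ) (R : Finset K) (LL : ℕ → Set (Finset C))
    (hLL : ∀ v, ∀ L ∈ LL v, L.card ≤ m)
    (Bad : K → ℕ → Finset C → (ℕ → Finset (C × C)) → (ℕ → Finset (C × C)) → Set C)
    (hBad : ∀ κ ∈ R, ∀ v ℓ low hi, ∀ L ∈ LL v, ∃ a ∈ L, a ∉ Bad κ v ℓ low hi)
    (hcov : ∀ v, ∀ b : K → Set C, (∀ κ ∈ R, ∀ L ∈ LL v, ∃ a ∈ L, a ∉ b κ) →
      ∃ γ : C, ∀ κ ∈ R, γ ∉ b κ) :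
    ∃ γ : ℕ → C, ∀ κ ∈ R, ∃ (L : ℕ → Finset C) (J : ℕ → ℕ → Finset (C × C)),
      (∀ v < N, L v ∈ LL v ∧ γ v ∈ L v) ∧
      (∀ w v, w < v → v < N → (γ w, γ v) ∈ J w v ∧ (J w v).card ≤ m * m) ∧
      ∀ v < N, γ v ∉ Bad κ v (L v) (fun w => J w v) (high J v) := by
  classical
  have stage : ∀ j p : ℕ, p + j = N → ∃ (γ : ℕ → C) (L : K → ℕ → Finset C)
      (J : K → ℕ → ℕ → Finset (C × C)), ∀ κ ∈ R,
      (∀ v, p ≤ v → v < N → L κ v ∈ LL v ∧ γ v ∈ L κ v) ∧
      (∀ w v, p ≤ w → w < v → v < N → (γ w, γ v) ∈ J κ w v ∧ (J κ w v).card ≤ m * m) ∧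
      ∀ v, p ≤ v → v < N →
        Safe m (fun σ => Bad κ v (L κ v) σ (high (J κ) v)) (γ v) p (fun w => J κ w v) := by
    intro j
    induction j with
    | zero =>
      intro p hp
      by_cases hR : R.Nonempty
      · obtain ⟨γ0, -⟩ : ∃ γ : C, ∀ κ ∈ R, γ ∉ (fun _ : K => (∅ : Set C)) κ := by
          by_cases hC : Nonempty C
          · exact ⟨hC.some, fun κ _ h => h⟩
          · by_cases h0 : ∃ L, L ∈ LL 0
            · obtain ⟨L, hL⟩ := h0
              obtain ⟨κ, hκ⟩ := hR
              obtain ⟨a, _, _⟩ := hBad κ hκ 0 ∅ (fun _ => ∅) (fun _ => ∅) L hL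
              exact absurd ⟨a⟩ hC
            · exact hcov 0 (fun _ => ∅) (fun κ _ L hL => absurd ⟨L, hL⟩ h0)
        refine ⟨fun _ => γ0, fun _ _ => ∅, fun _ _ _ => ∅, fun κ _ => ⟨?_, ?_, ?_⟩⟩
        · intro v h1 h2
          omega
        · intro w v h1 h2 h3
          omega
        · intro v h1 h2
          omega
      · obtain ⟨γ0, -⟩ := hcov 0 (fun _ => ∅) (fun κ hκ => absurd ⟨κ, hκ⟩ hR)
        exact ⟨fun _ => γ0, fun _ _ => ∅, fun _ _ _ => ∅, fun κ hκ => absurd ⟨κ, hκ⟩ hR⟩
    | succ j ih =>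
      intro p hp
      obtain ⟨γ, L, J, hst⟩ := ih (p + 1) (by omega)
      -- the hints chosen for the later players
      have hJ' : ∀ (κ : K) (ℓ : Finset C) (v : ℕ), ∃ J' : Finset (C × C), κ ∈ R → ℓ.card ≤ m →
          p < v → v < N → (∀ b ∈ ℓ, (b, γ v) ∈ J') ∧ J'.card ≤ m * m ∧
          Safe m (fun σ => Bad κ v (L κ v) σ (high (J κ) v)) (γ v) p
            (Function.update (fun w => J κ w v) p J') := by
        intro κ ℓ v
        by_cases h : κ ∈ R ∧ ℓ.card ≤ m ∧ p < v ∧ v < N
        · obtain ⟨hκ, hℓ, hpv, hv⟩ := h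
          have h1 := (hst κ hκ).2.2 v (by omega) hv
          rw [Safe] at h1
          obtain ⟨J', h2, h3, h4⟩ := h1 ℓ hℓ
          exact ⟨J', fun _ _ _ _ => ⟨h2, h3, h4⟩⟩
        · exact ⟨∅, fun h1 h2 h3 h4 => absurd ⟨h1, h2, h3, h4⟩ h⟩
      choose J' hJ' using hJ'
      -- the position of the player `p`
      let hi : K → Finset C → ℕ → Finset (C × C) := fun κ ℓ u => if p < u then J' κ ℓ u else ∅
      let F : K → Finset C → (ℕ → Finset (C × C)) → Set C := fun κ ℓ σ => Bad κ p ℓ σ (hi κ ℓ)
      obtain ⟨γp, hγp⟩ := hcov p (fun κ => {a | ∀ ℓ ∈ LL p, a ∈ ℓ →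
          ¬ Safe m (F κ ℓ) a p (fun w => J κ w p)}) (by
        intro κ hκ ℓ hℓ
        obtain ⟨a, ha, hs⟩ := exists_safe m (F κ ℓ) ℓ (hLL p ℓ hℓ)
          (fun σ => hBad κ hκ p ℓ σ (hi κ ℓ) ℓ hℓ) p (fun w => J κ w p)
        exact ⟨a, ha, fun h => h ℓ hℓ ha hs⟩)
      have hℓ : ∀ κ, ∃ ℓ : Finset C, κ ∈ R → ℓ ∈ LL p ∧ γp ∈ ℓ ∧
          Safe m (F κ ℓ) γp p (fun w => J κ w p) := by
        intro κ
        by_cases hκ : κ ∈ R
        · have h1 := hγp κ hκ
          rw [Set.mem_ofPred_eq] at h1
          push Not at h1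
          obtain ⟨ℓ, h2, h3, h4⟩ := h1
          exact ⟨ℓ, fun _ => ⟨h2, h3, h4⟩⟩
        · exact ⟨∅, fun h => absurd h hκ⟩
      choose ℓ hℓ using hℓ
      let γn : ℕ → C := Function.update γ p γp
      let Ln : K → ℕ → Finset C := fun κ => Function.update (L κ) p (ℓ κ)
      let Jn : K → ℕ → ℕ → Finset (C × C) :=
        fun κ w v => if w = p ∧ p < v then J' κ (ℓ κ) v else J κ w v
      refine ⟨γn, Ln, Jn, fun κ hκ => ?_⟩
      obtain ⟨h1, h2, h3⟩ := hst κ hκ
      obtain ⟨h4, h5, h6⟩ := hℓ κ hκ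
      have hℓm : (ℓ κ).card ≤ m := hLL p _ h4
      refine ⟨?_, ?_, ?_⟩
      · intro v hv hvN
        by_cases hvp : v = p
        · subst hvp
          simp only [γn, Ln, Function.update_self]
          exact ⟨h4, h5⟩
        · simp only [γn, Ln, Function.update_of_ne hvp]
          exact h1 v (by omega) hvN
      · intro w v hw hwv hvN
        by_cases hwp : w = p
        · subst hwp
          have h7 := hJ' κ (ℓ κ) v hκ hℓm hwv hvN
          have hvw : v ≠ w := by omega
          simp only [γn, Jn, Function.update_self, Function.update_of_ne hvw, true_and, hwv,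
            if_true]
          exact ⟨h7.1 _ h5, h7.2.1⟩
        · have hvp : v ≠ p := by omega
          simp only [γn, Jn, Function.update_of_ne hwp, Function.update_of_ne hvp, hwp,
            false_and, if_false]
          exact h2 w v (by omega) hwv hvN
      · intro v hv hvN
        by_cases hvp : v = p
        · subst hvp
          have e1 : (fun w => Jn κ w v) = fun w => J κ w v := by
            funext w
            have : ¬ (w = v ∧ v < v) := fun h => lt_irrefl _ h.2
            simp only [Jn, this, if_false]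
          have e2 : high (Jn κ) v = hi κ (ℓ κ) := by
            funext u
            by_cases hu : v < u
            · simp only [high, hi, hu, if_true, Jn, true_and]
            · simp only [high, hi, hu, if_false]
          rw [e1, e2]
          simp only [γn, Ln, Function.update_self]
          exact h6
        · have hpv : p < v := by omega
          have h7 := (hJ' κ (ℓ κ) v hκ hℓm hpv hvN).2.2
          have e1 : (fun w => Jn κ w v) = Function.update (fun w => J κ w v) p (J' κ (ℓ κ) v) := by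
            funext w
            by_cases hw : w = p
            · subst hw
              simp only [Jn, true_and, hpv, if_true, Function.update_self]
            · simp only [Jn, hw, false_and, if_false, Function.update_of_ne hw]
          have e2 : high (Jn κ) v = high (J κ) v := by
            funext u
            by_cases hu : v < u
            · simp only [high, hu, if_true, Jn, hvp, false_and, if_false]
            · simp only [high, hu, if_false]
          rw [e1, e2]
          simp only [γn, Ln, Function.update_of_ne hvp]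
          exact h7
  obtain ⟨γ, L, J, h⟩ := stage N 0 (by omega)
  refine ⟨γ, fun κ hκ => ?_⟩
  obtain ⟨h1, h2, h3⟩ := h κ hκ
  refine ⟨L κ, J κ, fun v hv => h1 v (Nat.zero_le v) hv, fun w v => h2 w v (Nat.zero_le w),
    fun v hv => ?_⟩
  have := h3 v (Nat.zero_le v) hv
  rw [Safe] at this
  exact this

end Pool.Agent.Lib.MP_994fee_co.Pair
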