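import Mathlib
import Pool.Agent.Lib.MP_994fee_co.TreeLike
import Pool.Agent.Lib.MP_994fee_co.Pair.Safe

/-!
# Boxes of colourings of a block
-/

set_option autoImplicit false

namespace Pool.Agent.Lib.MP_994fee_co.Pair

open Finset

section Boxes

variable {V : Type} [Fintype V] [DecidableEq V]

/-- The colouring of the block `B` (zero outside) with the entries `σ v (x v)`. -/
def pt (B : Finset V) {k : ℕ} (σ : V → Fin k → ℕ) (x : V → Fin k) : V → ℕ :=
  fun v => if v ∈ B then σ v (x v) else 0

/-- The boxes with sides of length `k` and entries below `q` on the block `B`. -/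
def Boxes (B : Finset V) (q k : ℕ) : Set (Finset (V → ℕ)) :=
  {L | ∃ σ : V → Fin k → ℕ, (∀ v, Function.Injective (σ v)) ∧ (∀ v j, σ v j < q) ∧
    L = Finset.univ.image (pt B σ)}

lemma boxes_card {B : Finset V} {q k n : ℕ} (hB : B.card ≤ n) (hk : 1 ≤ k) {L : Finset (V → ℕ)}
    (hL : L ∈ Boxes B q k) : L.card ≤ k ^ n := by
  obtain ⟨σ, _, _, rfl⟩ := hL
  have h1 : Finset.univ.image (pt B σ) ⊆
      Fintype.piFinset (fun v => if v ∈ B then Finset.univ.image (σ v) else {0}) := by
    intro a ha
    obtain ⟨x, _, rfl⟩ := Finset.mem_image.1 ha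
    rw [Fintype.mem_piFinset]
    intro v
    unfold pt
    split_ifs
    · exact Finset.mem_image_of_mem _ (Finset.mem_univ _)
    · exact Finset.mem_singleton_self 0
  refine le_trans (Finset.card_le_card h1) ?_
  rw [Fintype.card_piFinset]
  calc ∏ v : V, (if v ∈ B then Finset.univ.image (σ v) else ({0} : Finset ℕ)).card
      ≤ ∏ v : V, (if v ∈ B then k else 1) := by
        refine Finset.prod_le_prod (fun _ _ => Nat.zero_le _) (fun v _ => ?_)
        split_ifs
        · exact le_trans Finset.card_image_le (le_of_eq (Finset.card_fin k))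
        · exact le_of_eq (Finset.card_singleton _)
    _ = k ^ B.card := by
        rw [Finset.prod_ite, Finset.prod_const, Finset.prod_const_one, mul_one,
          Finset.filter_mem_eq_inter, Finset.univ_inter]
    _ ≤ k ^ n := Nat.pow_le_pow_right hk hB

/-- `r` sets without boxes do not cover the colourings. -/
def Cov (V : Type) [Fintype V] [DecidableEq V] (n q k r : ℕ) : Prop :=
  ∀ B : Finset V, B.card ≤ n → ∀ R : Finset (V → ℕ), R.card ≤ r →
    ∀ b : (V → ℕ) → Set (V → ℕ), (∀ κ ∈ R, ∀ L ∈ Boxes B q k, ∃ a ∈ L, a ∉ b κ) →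
      ∃ γ : V → ℕ, ∀ κ ∈ R, γ ∉ b κ

lemma cov_ramsey (n k r : ℕ) (hk : 1 ≤ k) : ∃ Q : ℕ, ∀ q : ℕ, Q ≤ q →
    ∀ (V : Type) [Fintype V] [DecidableEq V], Cov V n q k r := by
  obtain ⟨L', hL', hR⟩ := TL.boxRamsey r k hk n
  refine ⟨L', fun q hq V _ _ B hB R hRr b hb => ?_⟩
  by_contra hcon
  push Not at hcon
  classical
  have hc : ∀ γ : V → ℕ, ∃ κ : R, γ ∈ b κ := by
    intro γ
    obtain ⟨κ, hκ, h⟩ := hcon γ
    exact ⟨⟨κ, hκ⟩, h⟩
  choose ch hch using hc
  let z : (V → Fin L') → (V → ℕ) := fun y v => if v ∈ B then (y v : ℕ) else 0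
  obtain ⟨η, κ, hη, hκ⟩ := hR B hB (ι := R) (by rw [Fintype.card_coe]; exact hRr)
    (fun y => ch (z y)) (by
      intro y y' hyy
      have : z y = z y' := by
        funext v
        simp only [z]
        split_ifs with h
        · rw [hyy v h]
        · rfl
      simp only [this])
  obtain ⟨a, ha, hab⟩ := hb κ κ.2 (Finset.univ.image (pt B (fun v j => (η v j : ℕ))))
    ⟨fun v j => (η v j : ℕ), fun v j j' h => hη v (Fin.ext h),
      fun v j => lt_of_lt_of_le (η v j).2 hq, rfl⟩
  obtain ⟨x, _, rfl⟩ := Finset.mem_image.1 ha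
  apply hab
  have h1 := hch (z (fun v => η v (x v)))
  rw [hκ x] at h1
  exact h1

lemma cov_one (V : Type) [Fintype V] [DecidableEq V] : Cov V 1 5 2 4 := by
  classical
  intro B hB R hR b hb
  by_contra hcon
  push Not at hcon
  let sg : ℕ → V → ℕ := fun j v => if v ∈ B then j else 0
  have h1 : ∀ κ ∈ R, ((Finset.range 5).filter (fun j => sg j ∈ b κ)).card ≤ 1 := by
    intro κ hκ
    by_contra h2
    push Not at h2
    obtain ⟨j, hj, j', hj', hne⟩ := Finset.one_lt_card.1 h2
    rw [Finset.mem_filter, Finset.mem_range] at hj hj'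
    obtain ⟨a, ha, hab⟩ := hb κ hκ (Finset.univ.image (pt B (fun _ : V => ![j, j'])))
      ⟨fun _ => ![j, j'], by
        intro v x y hxy
        fin_cases x <;> fin_cases y <;> simp_all, by
        intro v x
        fin_cases x
        · exact hj.1
        · exact hj'.1, rfl⟩
    obtain ⟨x, _, rfl⟩ := Finset.mem_image.1 ha
    apply hab
    have h3 : pt B (fun _ : V => ![j, j']) x = sg j ∨ pt B (fun _ : V => ![j, j']) x = sg j' := by
      by_cases hBe : B = ∅
      · left
        funext v
        simp only [pt, sg, hBe, Finset.notMem_empty, if_false]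
      · obtain ⟨v0, hv0⟩ := Finset.nonempty_iff_ne_empty.2 hBe
        have hB1 : ∀ v ∈ B, v = v0 := fun v hv => Finset.card_le_one.1 hB v hv v0 hv0
        have h4 : x v0 = 0 ∨ x v0 = 1 := by
          have := (x v0).2
          rcases Nat.lt_or_ge (x v0 : ℕ) 1 with h | h
          · left; apply Fin.ext; show (x v0 : ℕ) = 0; omega
          · right; apply Fin.ext; show (x v0 : ℕ) = 1; omega
        rcases h4 with h4 | h4
        · left
          funext v
          by_cases hv : v ∈ B
          · have := hB1 v hv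
            subst this
            simp only [pt, sg, hv, if_true, h4, Matrix.cons_val_zero]
          · simp only [pt, sg, hv, if_false]
        · right
          funext v
          by_cases hv : v ∈ B
          · have := hB1 v hv
            subst this
            simp only [pt, sg, hv, if_true, h4, Matrix.cons_val_one, Matrix.cons_val_zero]
          · simp only [pt, sg, hv, if_false]
    rcases h3 with h3 | h3
    · rw [h3]; exact hj.2
    · rw [h3]; exact hj'.2
  have h2 : Finset.range 5 ⊆ R.biUnion (fun κ => (Finset.range 5).filter (fun j => sg j ∈ b κ)) := by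
    intro j hj
    obtain ⟨κ, hκ, h⟩ := hcon (sg j)
    exact Finset.mem_biUnion.2 ⟨κ, hκ, Finset.mem_filter.2 ⟨hj, h⟩⟩
  have h3 := Finset.card_le_card h2
  have h4 : (R.biUnion (fun κ => (Finset.range 5).filter (fun j => sg j ∈ b κ))).card ≤ 4 :=
    calc (R.biUnion (fun κ => (Finset.range 5).filter (fun j => sg j ∈ b κ))).card
        ≤ ∑ κ ∈ R, ((Finset.range 5).filter (fun j => sg j ∈ b κ)).card := Finset.card_biUnion_le
      _ ≤ ∑ _κ ∈ R, 1 := Finset.sum_le_sum h1
      _ = R.card := by rw [Finset.sum_const, smul_eq_mul, mul_one]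
      _ ≤ 4 := hR
  rw [Finset.card_range] at h3
  omega

end Boxes

end Pool.Agent.Lib.MP_994fee_co.Pair
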