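import Mathlib
import Pool.Agent.Lib.MP_994fee_co.Pair.Boxes

/-!
# Hat guessing on pair-trees of blocks
-/

set_option autoImplicit false

namespace Pool.Agent.Lib.MP_994fee_co.Pair

open Finset

/-! ### Descendants -/

/-- `i` is a descendant of the set `K` of blocks. -/
inductive Desc (P : ℕ → Finset ℕ) (K : Finset ℕ) : ℕ → Prop
  | base (i : ℕ) (h : P i = K) : Desc P K i
  | step (i j : ℕ) (h : j ∈ P i) (hd : Desc P K j) : Desc P K i

lemma Desc.lt {P : ℕ → Finset ℕ} (hP : ∀ i, ∀ j ∈ P i, j < i) {K : Finset ℕ} {i : ℕ}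
    (h : Desc P K i) : ∀ j ∈ K, j < i := by
  induction h with
  | base i h =>
    intro j hj
    rw [← h] at hj
    exact hP i j hj
  | step i j h _ ih =>
    intro j' hj'
    exact lt_trans (ih j' hj') (hP i j h)

lemma Desc.congr {P : ℕ → Finset ℕ} {K : Finset ℕ} {i i' : ℕ} (h : Desc P K i)
    (hii : P i = P i') : Desc P K i' := by
  cases h with
  | base i h => exact Desc.base i' (hii ▸ h)
  | step i j h hd => exact Desc.step i' j (hii ▸ h) hd

lemma Desc.child {P : ℕ → Finset ℕ} (hsib : ∀ i, ∀ j ∈ P i, ∀ k ∈ P i, P j = P k)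
    {K : Finset ℕ} {i : ℕ} (h : Desc P K i) :
    P i = K ∨ ∃ Q : Finset ℕ, (Q.Nonempty ∧ ∀ j ∈ Q, P j = K) ∧ Desc P Q i := by
  induction h with
  | base i h => exact Or.inl h
  | step i j h _ ih =>
    right
    rcases ih with ih | ⟨Q, hQ, hd⟩
    · refine ⟨P i, ⟨⟨j, h⟩, fun j' hj' => ?_⟩, Desc.base i rfl⟩
      rw [← ih]
      exact hsib i j' hj' j h
    · exact ⟨Q, hQ, Desc.step i j h hd⟩

lemma Desc.card {P : ℕ → Finset ℕ} (hP2 : ∀ i, (P i).card ≤ 2) {K : Finset ℕ} {i : ℕ}
    (h : Desc P K i) : K.card ≤ 2 := by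
  induction h with
  | base i h => rw [← h]; exact hP2 i
  | step i j h _ ih => exact ih

/-- No member of `K` is a descendant of a child set. -/
lemma Desc.not_mem {P : ℕ → Finset ℕ} (hP : ∀ i, ∀ j ∈ P i, j < i) {K Q : Finset ℕ}
    (hQ : Q.Nonempty ∧ ∀ j ∈ Q, P j = K) {k : ℕ} (hk : k ∈ K) : ¬ Desc P Q k := by
  intro h
  obtain ⟨j, hj⟩ := hQ.1
  have h1 := h.lt hP j hj
  have h2 : k ∈ P j := by rw [hQ.2 j hj]; exact hk
  have h3 := hP j k h2
  omega

/-- No member of the level of the children is a descendant of a child set. -/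
lemma Desc.not_level {P : ℕ → Finset ℕ} (hP : ∀ i, ∀ j ∈ P i, j < i) {K Q : Finset ℕ}
    (hQ : Q.Nonempty ∧ ∀ j ∈ Q, P j = K) {i : ℕ} (hi : P i = K) : ¬ Desc P Q i := by
  intro h
  cases h with
  | base i h =>
    obtain ⟨j, hj⟩ := hQ.1
    have h1 : j ∈ P j := by rw [hQ.2 j hj, ← hi, h]; exact hj
    exact lt_irrefl _ (hP j j h1)
  | step i j h hd =>
    rw [hi] at h
    exact Desc.not_mem hP hQ h hd

lemma Desc.unique {P : ℕ → Finset ℕ} (hP : ∀ i, ∀ j ∈ P i, j < i)
    (hsib : ∀ i, ∀ j ∈ P i, ∀ k ∈ P i, P j = P k) {K Q Q' : Finset ℕ}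
    (hQ : Q.Nonempty ∧ ∀ j ∈ Q, P j = K) (hQ' : Q'.Nonempty ∧ ∀ j ∈ Q', P j = K) {i : ℕ}
    (h : Desc P Q i) (h' : Desc P Q' i) : Q = Q' := by
  induction h with
  | base i h =>
    cases h' with
    | base i h'' => exact h.symm.trans h''
    | step i j h'' hd =>
      rw [h] at h''
      exact absurd hd (Desc.not_level hP hQ' (hQ.2 j h''))
  | step i j h hd ih =>
    cases h' with
    | base i h'' =>
      rw [h''] at h
      exact absurd hd (Desc.not_level hP hQ (hQ'.2 j h))
    | step i j' h'' hd' => exact ih (hd'.congr (hsib i j' h'' j h))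

/-! ### Hints -/

section Hint

variable {V : Type}

/-- The two colourings `a` (block `w`) and `b` (block `v`) put together. -/
def comb (β : V → ℕ) (v : ℕ) (a b : V → ℕ) : V → ℕ := fun u => if β u = v then b u else a u

/-- The hint on the set `Q` of one or two blocks. -/
noncomputable def hint [DecidableEq (V → ℕ)] (β : V → ℕ) (L : ℕ → Finset (V → ℕ))
    (J : ℕ → ℕ → Finset ((V → ℕ) × (V → ℕ))) (Q : Finset ℕ) : Finset (V → ℕ) :=
  if (Q.erase (Q.sup id)) = ∅ then L (Q.sup id)
  else (J ((Q.erase (Q.sup id)).sup id) (Q.sup id)).image (fun p => comb β (Q.sup id) p.1 p.2)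

/-- The colouring of the blocks of `Q` by `γ`. -/
noncomputable def pick (β : V → ℕ) (γ : ℕ → V → ℕ) (Q : Finset ℕ) : V → ℕ :=
  if (Q.erase (Q.sup id)) = ∅ then γ (Q.sup id)
  else comb β (Q.sup id) (γ ((Q.erase (Q.sup id)).sup id)) (γ (Q.sup id))

lemma sup_mem {Q : Finset ℕ} (hQ : Q.Nonempty) : Q.sup id ∈ Q := by
  obtain ⟨i, hi, h⟩ := Finset.exists_mem_eq_sup Q hQ id
  rw [h]
  exact hi

/-- A set with at most two elements: its elements. -/
lemma two_cases {Q : Finset ℕ} (hQ : Q.Nonempty) (h2 : Q.card ≤ 2) :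
    (Q.erase (Q.sup id) = ∅ ∧ ∀ i ∈ Q, i = Q.sup id) ∨
    (Q.erase (Q.sup id) ≠ ∅ ∧ (Q.erase (Q.sup id)).sup id < Q.sup id ∧
      (Q.erase (Q.sup id)).sup id ∈ Q ∧ ∀ i ∈ Q, i = Q.sup id ∨ i = (Q.erase (Q.sup id)).sup id) := by
  have hm := sup_mem hQ
  by_cases he : Q.erase (Q.sup id) = ∅
  · left
    refine ⟨he, fun i hi => ?_⟩
    by_contra hne
    have : i ∈ Q.erase (Q.sup id) := Finset.mem_erase.2 ⟨hne, hi⟩
    rw [he] at this
    exact Finset.notMem_empty i this
  · right
    have hne := Finset.nonempty_iff_ne_empty.2 he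
    have hm' := sup_mem hne
    have hc : (Q.erase (Q.sup id)).card ≤ 1 := by
      rw [Finset.card_erase_of_mem hm]
      omega
    refine ⟨he, ?_, (Finset.mem_erase.1 hm').2, fun i hi => ?_⟩
    · have h1 : (Q.erase (Q.sup id)).sup id ≤ Q.sup id :=
        Finset.le_sup (f := id) (Finset.mem_erase.1 hm').2
      have h2 := (Finset.mem_erase.1 hm').1
      omega
    · by_cases hi' : i = Q.sup id
      · exact Or.inl hi'
      · right
        exact Finset.card_le_one.1 hc i (Finset.mem_erase.2 ⟨hi', hi⟩) _ hm'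

lemma pick_mem [DecidableEq (V → ℕ)] (β : V → ℕ) {L : ℕ → Finset (V → ℕ)}
    {J : ℕ → ℕ → Finset ((V → ℕ) × (V → ℕ))} {γ : ℕ → V → ℕ} {M m : ℕ}
    (h1 : ∀ v < M, γ v ∈ L v)
    (h2 : ∀ w v, w < v → v < M → (γ w, γ v) ∈ J w v ∧ (J w v).card ≤ m * m)
    (h3 : ∀ v < M, (L v).card ≤ m) (hm : 1 ≤ m)
    {Q : Finset ℕ} (hQ : Q.Nonempty) (hQ2 : Q.card ≤ 2) (hQM : Q.sup id < M) :
    pick β γ Q ∈ hint β L J Q ∧ (hint β L J Q).card ≤ m * m := by
  rcases two_cases hQ hQ2 with ⟨he, _⟩ | ⟨he, hlt, _, _⟩
  · simp only [pick, hint, he, if_true]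
    exact ⟨h1 _ hQM, le_trans (h3 _ hQM) (Nat.le_mul_of_pos_left m hm)⟩
  · simp only [pick, hint, he, if_false]
    obtain ⟨h4, h5⟩ := h2 _ _ hlt hQM
    exact ⟨Finset.mem_image_of_mem (fun p : (V → ℕ) × (V → ℕ) => comb β (Q.sup id) p.1 p.2) h4,
      le_trans Finset.card_image_le h5⟩

lemma pick_eq (β : V → ℕ) (γ : ℕ → V → ℕ) {Q : Finset ℕ} (hQ : Q.Nonempty) (hQ2 : Q.card ≤ 2)
    {u : V} (hu : β u ∈ Q) : pick β γ Q u = γ (β u) u := by
  rcases two_cases hQ hQ2 with ⟨he, h⟩ | ⟨he, hlt, _, h⟩
  · simp only [pick, he, if_true]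
    rw [h _ hu]
  · simp only [pick, he, if_false, comb]
    rcases h _ hu with h | h
    · rw [if_pos h, h]
    · rw [if_neg (by omega), h]

/-- What the block `i` sees of the hints. -/
lemma hint_view [DecidableEq (V → ℕ)] (β : V → ℕ) (L : ℕ → Finset (V → ℕ))
    (J : ℕ → ℕ → Finset ((V → ℕ) × (V → ℕ))) {Q : Finset ℕ} (hQ2 : Q.card ≤ 2) {i : ℕ}
    (hi : i ∈ Q) :
    hint β (fun u => if u = i then L i else ∅)
      (fun w u => if u = i then J w i else high J i u) Q = hint β L J Q := by
  rcases two_cases ⟨i, hi⟩ hQ2 with ⟨he, h⟩ | ⟨he, hlt, hmem, h⟩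
  · simp only [hint, he, if_true]
    rw [if_pos (h i hi).symm, h i hi]
  · simp only [hint, he, if_false]
    rcases h i hi with h | h
    · rw [if_pos h.symm, ← h]
    · have h5 : Q.sup id ≠ i := by omega
      have h6 : i < Q.sup id := by omega
      rw [if_neg h5]
      simp only [high, h6, if_true]
      rw [← h]

end Hint

/-! ### The recursion -/

theorem recursion {V : Type} [Fintype V] [DecidableEq V] (n s q k m : ℕ) (hk : n * s + 1 ≤ k)
    (hm : m = k ^ n) (hcov : Cov V n q k (m * m)) (G : SimpleGraph V) (X : Finset V)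
    (β : V → ℕ) (P : ℕ → Finset ℕ) (hP : ∀ i, ∀ j ∈ P i, j < i) (hP2 : ∀ i, (P i).card ≤ 2)
    (hsib : ∀ i, ∀ j ∈ P i, ∀ k ∈ P i, P j = P k)
    (hB : ∀ i, (X.filter (fun v => β v = i)).card ≤ n)
    (hadj : ∀ v ∈ X, ∀ w ∈ X, G.Adj v w → β v = β w ∨ β w ∈ P (β v) ∨ β v ∈ P (β w))
    (g : V → (V → ℕ) → Finset ℕ)
    (hg : ∀ v ∈ X, ∀ c c' : V → ℕ, (∀ u ∈ X, G.Adj v u → c u = c' u) → g v c = g v c')
    (hgs : ∀ v ∈ X, ∀ c, (g v c).card ≤ s) :
    ∃ c : V → ℕ, ∀ v ∈ X, c v < q ∧ c v ∉ g v c := by
  classical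
  have hk1 : 1 ≤ k := by omega
  have hm1 : 1 ≤ m := by rw [hm]; exact Nat.one_le_pow _ _ hk1
  set M := X.sup β + 1 with hMdef
  have hM : ∀ v ∈ X, β v < M := fun v hv => Nat.lt_succ_of_le (Finset.le_sup hv)
  have claim : ∀ (t : ℕ) (K : Finset ℕ), M ≤ K.sup Nat.succ + t → ∀ A : Finset (V → ℕ),
      A.card ≤ m * m → ∃ γ : V → ℕ, ∀ κ ∈ A, ∃ c : V → ℕ,
        (∀ v ∈ X, β v ∈ K → c v = κ v) ∧ (∀ v ∈ X, P (β v) = K → c v = γ v) ∧
        ∀ v ∈ X, Desc P K (β v) → c v < q ∧ c v ∉ g v c := by
    intro t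
    induction t with
    | zero =>
      intro K hK A _
      have hno : ∀ v ∈ X, ¬ Desc P K (β v) := by
        intro v hv hd
        have h1 := hM v hv
        have h2 : K.sup Nat.succ ≤ β v :=
          Finset.sup_le (fun j hj => Nat.succ_le_of_lt (hd.lt hP j hj))
        omega
      exact ⟨fun _ => 0, fun κ _ => ⟨κ, fun _ _ _ => rfl,
        fun v hv h => absurd (Desc.base _ h) (hno v hv), fun v hv h => absurd h (hno v hv)⟩⟩
    | succ t ih =>
      intro K hK A hA
      -- the hint functions of the child sets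
      have hΓ : ∀ (Q : Finset ℕ) (A' : Finset (V → ℕ)), ∃ γ : V → ℕ,
          (Q.Nonempty ∧ ∀ j ∈ Q, P j = K) → A'.card ≤ m * m → ∀ κ ∈ A', ∃ c : V → ℕ,
            (∀ v ∈ X, β v ∈ Q → c v = κ v) ∧ (∀ v ∈ X, P (β v) = Q → c v = γ v) ∧
            ∀ v ∈ X, Desc P Q (β v) → c v < q ∧ c v ∉ g v c := by
        intro Q A'
        by_cases h : (Q.Nonempty ∧ ∀ j ∈ Q, P j = K) ∧ A'.card ≤ m * m
        · obtain ⟨γ, hγ⟩ := ih Q (by
            obtain ⟨⟨j, hj⟩, hQ⟩ := h.1
            have h1 : K.sup Nat.succ ≤ j :=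
              Finset.sup_le (fun i hi => Nat.succ_le_of_lt (hP j i (by rw [hQ j hj]; exact hi)))
            have h2 : Nat.succ j ≤ Q.sup Nat.succ := Finset.le_sup hj
            omega) A' h.2
          exact ⟨γ, fun _ _ => hγ⟩
        · exact ⟨fun _ => 0, fun h1 h2 => absurd ⟨h1, h2⟩ h⟩
      choose Γ hΓ using hΓ
      let view : (V → ℕ) → ℕ → (V → ℕ) → (ℕ → Finset (V → ℕ)) →
          (ℕ → ℕ → Finset ((V → ℕ) × (V → ℕ))) → (V → ℕ) := fun κ i a L S u =>
        if β u = i then a u else if β u ∈ K then κ u else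
          if i ∈ P (β u) then Γ (P (β u)) (hint β L S (P (β u))) u else 0
      let Bad : (V → ℕ) → ℕ → Finset (V → ℕ) → (ℕ → Finset ((V → ℕ) × (V → ℕ))) →
          (ℕ → Finset ((V → ℕ) × (V → ℕ))) → Set (V → ℕ) := fun κ i ℓ low hi =>
        {a | P i = K ∧ ∃ v ∈ X, β v = i ∧ a v ∈ g v (view κ i a
          (fun u => if u = i then ℓ else ∅) (fun w u => if u = i then low w else hi u))}
      obtain ⟨γ, hγ⟩ := lemmaA m M A (fun i => Boxes (X.filter (fun v => β v = i)) q k)
        (fun i L hL => by rw [hm]; exact boxes_card (hB i) hk1 hL) Bad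
        (by
          intro κ _ i ℓ low hi L hL
          obtain ⟨σ, hσ, _, rfl⟩ := hL
          let Bi : Finset V := X.filter (fun v => β v = i)
          let vw : (V → ℕ) → (V → ℕ) := fun a => view κ i a
            (fun u => if u = i then ℓ else ∅) (fun w u => if u = i then low w else hi u)
          let h : V → (V → Fin k) → Finset (Fin k) := fun v x =>
            Finset.univ.filter (fun j : Fin k => σ v j ∈ g v (vw (pt Bi σ x)))
          obtain ⟨x, hx⟩ : ∃ x : V → Fin k, ∀ v ∈ Bi, x v ∉ h v x := by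
            by_contra hcon
            push Not at hcon
            have h1 : (Finset.univ : Finset (V → Fin k)) ⊆
                Bi.biUnion (fun v => Finset.univ.filter (fun x => x v ∈ h v x)) := by
              intro x _
              obtain ⟨v, hv, hvx⟩ := hcon x
              exact Finset.mem_biUnion.2 ⟨v, hv, Finset.mem_filter.2 ⟨Finset.mem_univ _, hvx⟩⟩
            have h2 : ∀ v ∈ Bi, k * ((Finset.univ : Finset (V → Fin k)).filter
                (fun x => x v ∈ h v x)).card ≤ s * (Finset.univ : Finset (V → Fin k)).card := by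
              intro v hv
              have hvX : v ∈ X := (Finset.mem_filter.1 hv).1
              have hvi : β v = i := (Finset.mem_filter.1 hv).2
              apply PW.fibre v Finset.univ (h v)
              · intro c a _
                exact Finset.mem_univ _
              · intro c a
                have : g v (vw (pt Bi σ (Function.update c v a))) = g v (vw (pt Bi σ c)) := by
                  apply hg v hvX
                  intro u _ huv
                  have hne : u ≠ v := fun h => G.ne_of_adj huv h.symm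
                  simp only [vw, view]
                  by_cases hui : β u = i
                  · rw [if_pos hui, if_pos hui]
                    simp only [pt, Function.update_of_ne hne]
                  · rw [if_neg hui, if_neg hui]
                simp only [h, this]
              · intro c
                refine le_trans ?_ (hgs v hvX (vw (pt Bi σ c)))
                refine Finset.card_le_card_of_injOn (fun j => σ v j) ?_ ?_
                · intro j hj
                  exact Finset.mem_coe.2 (Finset.mem_filter.1 (Finset.mem_coe.1 hj)).2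
                · intro j _ j' _ hjj
                  exact hσ v hjj
            have h3 : k * (Finset.univ : Finset (V → Fin k)).card ≤
                n * s * (Finset.univ : Finset (V → Fin k)).card := by
              calc k * (Finset.univ : Finset (V → Fin k)).card
                  ≤ k * (Bi.biUnion (fun v => Finset.univ.filter (fun x => x v ∈ h v x))).card :=
                    Nat.mul_le_mul_left _ (Finset.card_le_card h1)
                _ ≤ k * ∑ v ∈ Bi, ((Finset.univ : Finset (V → Fin k)).filter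
                    (fun x => x v ∈ h v x)).card := Nat.mul_le_mul_left _ Finset.card_biUnion_le
                _ = ∑ v ∈ Bi, k * ((Finset.univ : Finset (V → Fin k)).filter
                    (fun x => x v ∈ h v x)).card := Finset.mul_sum _ _ _
                _ ≤ ∑ _v ∈ Bi, s * (Finset.univ : Finset (V → Fin k)).card :=
                    Finset.sum_le_sum h2
                _ = Bi.card * (s * (Finset.univ : Finset (V → Fin k)).card) := by
                    rw [Finset.sum_const, smul_eq_mul]
                _ ≤ n * (s * (Finset.univ : Finset (V → Fin k)).card) :=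
                    Nat.mul_le_mul_right _ (hB i)
                _ = n * s * (Finset.univ : Finset (V → Fin k)).card := by ring
            have h4 : 0 < (Finset.univ : Finset (V → Fin k)).card :=
              Finset.card_pos.2 ⟨fun _ => ⟨0, hk1⟩, Finset.mem_univ _⟩
            have h5 := Nat.le_of_mul_le_mul_right h3 h4
            omega
          refine ⟨pt Bi σ x, Finset.mem_image_of_mem _ (Finset.mem_univ x), ?_⟩
          rintro ⟨_, v, hvX, hvi, hv⟩
          have hvB : v ∈ Bi := Finset.mem_filter.2 ⟨hvX, hvi⟩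
          apply hx v hvB
          refine Finset.mem_filter.2 ⟨Finset.mem_univ _, ?_⟩
          have : pt Bi σ x v = σ v (x v) := by simp only [pt, hvB, if_true]
          rw [this] at hv
          exact hv)
        (fun i b hb => hcov _ (hB i) A hA b hb)
      refine ⟨fun u => γ (β u) u, fun κ hκ => ?_⟩
      obtain ⟨L, S, h1, h2, h3⟩ := hγ κ hκ
      -- the colourings below the child sets
      have hcQ : ∀ Q : Finset ℕ, ∃ c : V → ℕ, (Q.Nonempty ∧ ∀ j ∈ Q, P j = K) → Q.card ≤ 2 →
          Q.sup id < M → (∀ v ∈ X, β v ∈ Q → c v = γ (β v) v) ∧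
            (∀ v ∈ X, P (β v) = Q → c v = Γ Q (hint β L S Q) v) ∧
            ∀ v ∈ X, Desc P Q (β v) → c v < q ∧ c v ∉ g v c := by
        intro Q
        by_cases h : (Q.Nonempty ∧ ∀ j ∈ Q, P j = K) ∧ Q.card ≤ 2 ∧ Q.sup id < M
        · obtain ⟨hQ, hQ2, hQM⟩ := h
          obtain ⟨h4, h5⟩ := pick_mem β (fun v hv => (h1 v hv).2) h2
            (fun v hv => by rw [hm]; exact boxes_card (hB v) hk1 (h1 v hv).1) hm1 hQ.1 hQ2 hQM
          obtain ⟨c, hc1, hc2, hc3⟩ := hΓ Q (hint β L S Q) hQ h5 _ h4
          refine ⟨c, fun _ _ _ => ⟨fun v hv hvQ => ?_, hc2, hc3⟩⟩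
          rw [hc1 v hv hvQ, pick_eq β γ hQ.1 hQ2 hvQ]
        · exact ⟨fun _ => 0, fun h4 h5 h6 => absurd ⟨h4, h5, h6⟩ h⟩
      choose cQ hcQ using hcQ
      let c : V → ℕ := fun u => if β u ∈ K then κ u else if P (β u) = K then γ (β u) u else
        if h : ∃ Q : Finset ℕ, (Q.Nonempty ∧ ∀ j ∈ Q, P j = K) ∧ Desc P Q (β u) then
          cQ h.choose u else 0
      have hc1 : ∀ u, β u ∈ K → c u = κ u := by
        intro u hu
        simp only [c, hu, if_true]
      have hc2 : ∀ u, P (β u) = K → c u = γ (β u) u := by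
        intro u hu
        have h4 : β u ∉ K := by
          intro h
          rw [← hu] at h
          exact lt_irrefl _ (hP _ _ h)
        simp only [c, h4, if_false, hu, if_true]
      have hc3 : ∀ (Q : Finset ℕ) (u : V), (Q.Nonempty ∧ ∀ j ∈ Q, P j = K) → Desc P Q (β u) →
          c u = cQ Q u := by
        intro Q u hQ hd
        have h4 : β u ∉ K := fun h => Desc.not_mem hP hQ h hd
        have h5 : P (β u) ≠ K := fun h => Desc.not_level hP hQ h hd
        have hex : ∃ Q : Finset ℕ, (Q.Nonempty ∧ ∀ j ∈ Q, P j = K) ∧ Desc P Q (β u) :=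
          ⟨Q, hQ, hd⟩
        have h6 : hex.choose = Q :=
          Desc.unique hP hsib hex.choose_spec.1 hQ hex.choose_spec.2 hd
        simp only [c, h4, if_false, h5]
        rw [dif_pos hex, h6]
      have hQM : ∀ (Q : Finset ℕ) (v : V), v ∈ X → Desc P Q (β v) → Q.sup id < M := by
        intro Q v hv hd
        rw [Finset.sup_lt_iff (by rw [hMdef]; exact Nat.succ_pos _)]
        intro j hj
        exact lt_trans (hd.lt hP j hj) (hM v hv)
      refine ⟨c, fun v _ => hc1 v, fun v _ => hc2 v, fun v hv hd => ?_⟩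
      rcases hd.child hsib with hvK | ⟨Q, hQ, hdQ⟩
      · -- a vertex of the level of the children
        have h4 := h1 (β v) (hM v hv)
        have h5 := h3 (β v) (hM v hv)
        have h6 : γ (β v) v < q := by
          obtain ⟨⟨σ, _, hσq, hL⟩, hγL⟩ := h4
          rw [hL] at hγL
          obtain ⟨x, _, hx⟩ := Finset.mem_image.1 hγL
          rw [← hx]
          have : v ∈ X.filter (fun w => β w = β v) := Finset.mem_filter.2 ⟨hv, rfl⟩
          simp only [pt, this, if_true]
          exact hσq v _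
        have h7 : g v c = g v (view κ (β v) (γ (β v))
            (fun u => if u = β v then L (β v) else ∅)
            (fun w u => if u = β v then S w (β v) else high S (β v) u)) := by
          apply hg v hv
          intro u hu huv
          simp only [view]
          by_cases h8 : β u = β v
          · rw [if_pos h8, hc2 u (by rw [h8]; exact hvK), h8]
          · rw [if_neg h8]
            by_cases h9 : β u ∈ K
            · rw [if_pos h9, hc1 u h9]
            · rw [if_neg h9]
              have h10 : β v ∈ P (β u) := by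
                rcases hadj v hv u hu huv with h | h | h
                · exact absurd h.symm h8
                · rw [hvK] at h
                  exact absurd h h9
                · exact h
              rw [if_pos h10]
              have hQu : (P (β u)).Nonempty ∧ ∀ j ∈ P (β u), P j = K :=
                ⟨⟨_, h10⟩, fun j hj => by rw [hsib _ j hj _ h10, hvK]⟩
              have hdu : Desc P (P (β u)) (β u) := Desc.base _ rfl
              rw [hc3 _ u hQu hdu, hint_view β L S (hP2 _) h10]
              exact (hcQ _ hQu (hP2 _) (hQM _ u hu hdu)).2.1 u hu rfl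
        rw [hc2 v hvK, h7]
        refine ⟨h6, fun h8 => h5 ?_⟩
        exact ⟨hvK, v, hv, rfl, h8⟩
      · -- a vertex below a child set
        obtain ⟨h4, h5, h6⟩ := hcQ Q hQ (hdQ.card hP2) (hQM Q v hv hdQ)
        have h7 : g v c = g v (cQ Q) := by
          apply hg v hv
          intro u hu huv
          rcases hadj v hv u hu huv with h | h | h
          · exact hc3 Q u hQ (by rw [← h]; exact hdQ)
          · cases hdQ with
            | base _ hb =>
              have huQ : β u ∈ Q := by rw [← hb]; exact h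
              rw [hc2 u (hQ.2 _ huQ), h4 u hu huQ]
            | step _ j hj hdj => exact hc3 Q u hQ (hdj.congr (hsib _ j hj _ h))
          · exact hc3 Q u hQ (Desc.step _ _ h hdQ)
        rw [h7, hc3 Q v hQ hdQ]
        exact h6 v hv hdQ
  obtain ⟨γ, hγ⟩ := claim M ∅ (by simp) {fun _ => 0} (by
    rw [Finset.card_singleton]
    exact Nat.mul_le_mul hm1 hm1)
  obtain ⟨c, _, _, h⟩ := hγ (fun _ => 0) (Finset.mem_singleton_self _)
  refine ⟨c, fun v hv => h v hv ?_⟩
  have : ∀ i, Desc P ∅ i := by
    intro i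
    induction i using Nat.strong_induction_on with
    | _ i ih =>
      by_cases h : P i = ∅
      · exact Desc.base i h
      · obtain ⟨j, hj⟩ := Finset.nonempty_iff_ne_empty.2 h
        exact Desc.step i j hj (ih j (hP i j hj))
  exact this _

end Pool.Agent.Lib.MP_994fee_co.Pair
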