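import Mathlib
import Pool.Agent.Lib.MP_994fee_co.Pair.Main

/-!
# Hat guessing on pair-trees of blocks with edges between siblings
-/

set_option autoImplicit false

namespace Pool.Agent.Lib.MP_994fee_co.Pair

open Finset

/-- The game on a small block: every box of side at least `n s + 1` contains a colouring with which
nobody in the block guesses right. -/
lemma clique {V : Type} [Fintype V] [DecidableEq V] {n s k : ℕ} (hk : n * s + 1 ≤ k)
    (Bi : Finset V) (hBi : Bi.card ≤ n) (σ : V → Fin k → ℕ) (hσ : ∀ v, Function.Injective (σ v))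
    (f : V → (V → Fin k) → Finset ℕ)
    (hf : ∀ v ∈ Bi, ∀ c a, f v (Function.update c v a) = f v c)
    (hs : ∀ v ∈ Bi, ∀ c, (f v c).card ≤ s) : ∃ x : V → Fin k, ∀ v ∈ Bi, σ v (x v) ∉ f v x := by
  classical
  have hk1 : 1 ≤ k := by omega
  let h : V → (V → Fin k) → Finset (Fin k) := fun v x =>
    Finset.univ.filter (fun j : Fin k => σ v j ∈ f v x)
  by_contra hcon
  push Not at hcon
  have h1 : (Finset.univ : Finset (V → Fin k)) ⊆
      Bi.biUnion (fun v => Finset.univ.filter (fun x => x v ∈ h v x)) := by
    intro x _
    obtain ⟨v, hv, hvx⟩ := hcon x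
    exact Finset.mem_biUnion.2 ⟨v, hv, Finset.mem_filter.2 ⟨Finset.mem_univ _,
      Finset.mem_filter.2 ⟨Finset.mem_univ _, hvx⟩⟩⟩
  have h2 : ∀ v ∈ Bi, k * ((Finset.univ : Finset (V → Fin k)).filter
      (fun x => x v ∈ h v x)).card ≤ s * (Finset.univ : Finset (V → Fin k)).card := by
    intro v hv
    apply PW.fibre v Finset.univ (h v)
    · intro c a _
      exact Finset.mem_univ _
    · intro c a
      simp only [h, hf v hv c a]
    · intro c
      refine le_trans ?_ (hs v hv c)
      refine Finset.card_le_card_of_injOn (fun j => σ v j) ?_ ?_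
      · intro j hj
        exact Finset.mem_coe.2 (Finset.mem_filter.1 (Finset.mem_coe.1 hj)).2
      · intro j _ j' _ hjj
        exact hσ v hjj
  have h3 : k * (Finset.univ : Finset (V → Fin k)).card ≤
      n * s * (Finset.univ : Finset (V → Fin k)).card := by
    calc k * (Finset.univ : Finset (V → Fin k)).card
        ≤ k * (Bi.biUnion (fun v => Finset.univ.filter (fun x => x v ∈ h v x))).card :=
          Nat.mul_le_mul_left _ (Finset.card_le_card h1)
      _ ≤ k * ∑ v ∈ Bi, ((Finset.univ : Finset (V → Fin k)).filter
          (fun x => x v ∈ h v x)).card := Nat.mul_le_mul_left _ Finset.card_biUnion_le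
      _ = ∑ v ∈ Bi, k * ((Finset.univ : Finset (V → Fin k)).filter
          (fun x => x v ∈ h v x)).card := Finset.mul_sum _ _ _
      _ ≤ ∑ _v ∈ Bi, s * (Finset.univ : Finset (V → Fin k)).card :=
          Finset.sum_le_sum h2
      _ = Bi.card * (s * (Finset.univ : Finset (V → Fin k)).card) := by
          rw [Finset.sum_const, smul_eq_mul]
      _ ≤ n * (s * (Finset.univ : Finset (V → Fin k)).card) := Nat.mul_le_mul_right _ hBi
      _ = n * s * (Finset.univ : Finset (V → Fin k)).card := by ring
  have h4 : 0 < (Finset.univ : Finset (V → Fin k)).card :=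
    Finset.card_pos.2 ⟨fun _ => ⟨0, hk1⟩, Finset.mem_univ _⟩
  have h5 := Nat.le_of_mul_le_mul_right h3 h4
  omega

lemma hint_congr {V : Type} [DecidableEq (V → ℕ)] (β : V → ℕ) {L L' : ℕ → Finset (V → ℕ)}
    {J J' : ℕ → ℕ → Finset ((V → ℕ) × (V → ℕ))} {Q : Finset ℕ} (hQ : Q.Nonempty)
    (hQ2 : Q.card ≤ 2) (hL : ∀ i ∈ Q, L i = L' i)
    (hJ : Q.card = 2 → ∀ i ∈ Q, ∀ j ∈ Q, J i j = J' i j) :
    hint β L J Q = hint β L' J' Q := by
  rcases two_cases hQ hQ2 with ⟨he, _⟩ | ⟨he, _, hmem, _⟩
  · simp only [hint, he, if_true]
    exact hL _ (sup_mem hQ)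
  · have hc : Q.card = 2 := by
      have h1 : 0 < (Q.erase (Q.sup id)).card :=
        Finset.card_pos.2 (Finset.nonempty_iff_ne_empty.2 he)
      rw [Finset.card_erase_of_mem (sup_mem hQ)] at h1
      omega
    simp only [hint, he, if_false]
    rw [hJ hc _ hmem _ (sup_mem hQ)]

/-- The colouring `a` of the block `i`, zero outside. -/
def res {V : Type} (β : V → ℕ) (i : ℕ) (a : V → ℕ) : V → ℕ := fun v => if β v = i then a v else 0

theorem main2 (n s : ℕ) : ∃ Q₀ : ℕ, ∀ q : ℕ, Q₀ ≤ q →
    ∀ {V : Type} [Fintype V] [DecidableEq V] (G : SimpleGraph V) (β : V → ℕ)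
      (P : ℕ → Finset ℕ) (ρ : ℕ → ℕ),
      (∀ i, ∀ j ∈ P i, j < i) → (∀ i, (P i).card ≤ 2) →
      (∀ i, ∀ j ∈ P i, ∀ k ∈ P i, P j = P k) → (∀ i, ρ i < n) →
      (∀ i, (P i).card = 2 → ∀ j ∈ P i, ρ j = 0) →
      (∀ i, ((Finset.univ : Finset V).filter (fun v => β v = i)).card ≤ n) →
      (∀ v w, G.Adj v w → β v = β w ∨ β w ∈ P (β v) ∨ β v ∈ P (β w) ∨
        (P (β v) = P (β w) ∧ ρ (β v) ≠ ρ (β w))) →
      (∀ i, ∀ S : Finset ℕ, (∀ j ∈ S, P j = P i ∧ ρ j < ρ i ∧
        ∃ v w, G.Adj v w ∧ β v = i ∧ β w = j) → S.card ≤ n) →
      ∀ g : V → (V → ℕ) → Finset ℕ,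
        (∀ v c c', (∀ u, G.Adj v u → c u = c' u) → g v c = g v c') →
        (∀ v c, (g v c).card ≤ s) →
        ∃ c : V → ℕ, ∀ v, c v < q ∧ c v ∉ g v c := by
  classical
  set k := n * s + 1 with hkdef
  have hk1 : 1 ≤ k := by omega
  set m := k ^ n with hmdef
  have hm1 : 1 ≤ m := Nat.one_le_pow _ _ hk1
  have hmmm : m ≤ m * m := Nat.le_mul_of_pos_left m hm1
  obtain ⟨q₁, hq₁⟩ := cov_ramsey n k (m * m) hk1
  obtain ⟨L₂, hL₂, hU⟩ := TL.boxFree_union n (m * m * (q₁ + 1) ^ (n * n)) k hk1
  obtain ⟨Q, hQ⟩ := TL.siblings n n n L₂ hL₂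
  refine ⟨max (q₁ + 1) Q, ?_⟩
  intro q hq V _ _ G β P ρ hP hP2 hsib hρ hρ0 ht hadj hb g hg hgs
  have hcov : Cov V n (q₁ + 1) k (m * m) := hq₁ (q₁ + 1) (Nat.le_succ _) V
  have hq1 : q₁ + 1 ≤ q := le_trans (le_max_left _ _) hq
  have hQq : Q ≤ q := le_trans (le_max_right _ _) hq
  set M := (Finset.univ : Finset V).sup β + 1 with hMdef
  have hM : ∀ v, β v < M := fun v => Nat.lt_succ_of_le (Finset.le_sup (Finset.mem_univ v))
  have claim : ∀ (t : ℕ) (K : Finset ℕ), M ≤ K.sup Nat.succ + t → ∀ A : Finset (V → ℕ),
      A.card ≤ m * m → ∃ γ : V → ℕ, ∀ κ ∈ A, ∃ c : V → ℕ,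
        (∀ v, β v ∈ K → c v = κ v) ∧ (∀ v, P (β v) = K → c v = γ v) ∧
        ∀ v, Desc P K (β v) → c v < q ∧ c v ∉ g v c := by
    intro t
    induction t with
    | zero =>
      intro K hK A _
      have hno : ∀ v, ¬ Desc P K (β v) := by
        intro v hd
        have h1 := hM v
        have h2 : K.sup Nat.succ ≤ β v :=
          Finset.sup_le (fun j hj => Nat.succ_le_of_lt (hd.lt hP j hj))
        omega
      exact ⟨fun _ => 0, fun κ _ => ⟨κ, fun _ _ => rfl,
        fun v h => absurd (Desc.base _ h) (hno v), fun v h => absurd h (hno v)⟩⟩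
    | succ t ih =>
      intro K hK A hA
      -- the hint functions of the child sets
      have hΓ : ∀ (Q : Finset ℕ) (A' : Finset (V → ℕ)), ∃ γ : V → ℕ,
          (Q.Nonempty ∧ ∀ j ∈ Q, P j = K) → A'.card ≤ m * m → ∀ κ ∈ A', ∃ c : V → ℕ,
            (∀ v, β v ∈ Q → c v = κ v) ∧ (∀ v, P (β v) = Q → c v = γ v) ∧
            ∀ v, Desc P Q (β v) → c v < q ∧ c v ∉ g v c := by
        intro Q A'
        by_cases h : (Q.Nonempty ∧ ∀ j ∈ Q, P j = K) ∧ A'.card ≤ m * m
        · obtain ⟨γ, hγ⟩ := ih Q (by
            obtain ⟨⟨j, hj⟩, hQ⟩ := h.1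
            have h1 : K.sup Nat.succ ≤ j :=
              Finset.sup_le (fun i hi => Nat.succ_le_of_lt (hP j i (by rw [hQ j hj]; exact hi)))
            have h2 : Nat.succ j ≤ Q.sup Nat.succ := Finset.le_sup hj
            omega) A' h.2
          exact ⟨γ, fun _ _ => hγ⟩
        · exact ⟨fun _ => 0, fun h1 h2 => absurd ⟨h1, h2⟩ h⟩
      choose Γ hΓ using hΓ
      let Bl : ℕ → Finset V := fun i => Finset.univ.filter (fun v => β v = i)
      have hBl : ∀ i v, v ∈ Bl i ↔ β v = i := fun i v => by
        simp only [Bl, Finset.mem_filter, Finset.mem_univ, true_and]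
      have hBlc : ∀ i, (Bl i).card ≤ n := ht
      let view : (V → ℕ) → (V → ℕ) → ℕ → (V → ℕ) → (ℕ → Finset (V → ℕ)) →
          (ℕ → ℕ → Finset ((V → ℕ) × (V → ℕ))) → (V → ℕ) := fun κ τ i a L S u =>
        if β u = i then a u else if β u ∈ K then κ u else if P (β u) = K then τ u else
          if i ∈ P (β u) then Γ (P (β u)) (hint β L S (P (β u))) u else 0
      -- the game on one block
      have hcl : ∀ (κ τ : V → ℕ) (i : ℕ) (L : ℕ → Finset (V → ℕ))
          (S : ℕ → ℕ → Finset ((V → ℕ) × (V → ℕ))) (σ : V → Fin k → ℕ), (∀ v, Function.Injective (σ v)) → ∃ x : V → Fin k,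
            ∀ v, β v = i → pt (Bl i) σ x v ∉ g v (view κ τ i (pt (Bl i) σ x) L S) := by
        intro κ τ i L S σ hσ
        obtain ⟨x, hx⟩ := clique (n := n) (s := s) (k := k) (le_refl _) (Bl i) (hBlc i) σ hσ
          (fun v x => g v (view κ τ i (pt (Bl i) σ x) L S))
          (by
            intro v _ c a
            apply hg v
            intro u huv
            have hne : u ≠ v := fun h => G.ne_of_adj huv h.symm
            simp only [view]
            by_cases hui : β u = i
            · rw [if_pos hui, if_pos hui]
              simp only [pt, Function.update_of_ne hne]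
            · rw [if_neg hui, if_neg hui])
          (fun v _ c => hgs v _)
        refine ⟨x, fun v hv => ?_⟩
        have := hx v ((hBl i v).2 hv)
        have h2 : pt (Bl i) σ x v = σ v (x v) := by
          simp only [pt, (hBl i v).2 hv, if_true]
        rw [h2]
        exact this
      -- the blocks of positive rank
      let T : Finset ℕ := (Finset.range M).filter (fun z => P z = K ∧ ρ z ≠ 0)
      have hT : ∀ z, z ∈ T ↔ z < M ∧ P z = K ∧ ρ z ≠ 0 := by
        intro z
        simp only [T, Finset.mem_filter, Finset.mem_range]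
      let R : ℕ → ℕ → Prop := fun z z' => z ≠ z' ∧ ∃ v u, G.Adj v u ∧ β v = z ∧ β u = z'
      let W : ℕ → Finset V := fun z =>
        Finset.univ.filter (fun v => P (β v) = K ∧ ρ (β v) = 0 ∧ R z (β v))
      have hW : ∀ z ∈ T, (W z).card ≤ n * n := by
        intro z hz
        obtain ⟨_, hz2, hz3⟩ := (hT z).1 hz
        let Z : Finset ℕ := (Finset.range M).filter (fun j => P j = K ∧ ρ j = 0 ∧ R z j)
        have hZ : Z.card ≤ n := by
          apply hb z
          intro j hj
          obtain ⟨_, h1, h2, _, h3⟩ := Finset.mem_filter.1 hj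
          exact ⟨by rw [h1, hz2], by omega, h3⟩
        have hsub : W z ⊆ Z.biUnion (fun j => Bl j) := by
          intro v hv
          have h1 := (Finset.mem_filter.1 hv).2
          rw [Finset.mem_biUnion]
          exact ⟨β v, Finset.mem_filter.2 ⟨Finset.mem_range.2 (hM v), h1⟩, (hBl _ v).2 rfl⟩
        calc (W z).card ≤ (Z.biUnion (fun j => Bl j)).card := Finset.card_le_card hsub
          _ ≤ ∑ j ∈ Z, (Bl j).card := Finset.card_biUnion_le
          _ ≤ ∑ _j ∈ Z, n := Finset.sum_le_sum (fun j _ => hBlc j)
          _ = Z.card * n := by rw [Finset.sum_const, smul_eq_mul]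
          _ ≤ n * n := Nat.mul_le_mul_right _ hZ
      let BadT : (V → ℕ) → (V → ℕ) → ℕ → Finset (V → ℕ) → Set (V → ℕ) := fun κ τ z ℓ =>
        {a | ∃ v, β v = z ∧ a v ∈ g v (view κ τ z a (fun _ => ℓ) (fun _ _ => ∅))}
      let F : ℕ → (V → ℕ) → (V → ℕ) → Prop := fun z τ a =>
        ∃ y : A × (W z → Fin (q₁ + 1)), ∀ ℓ ∈ Boxes (Bl z) q k, res β z a ∈ ℓ →
          res β z a ∈ BadT y.1 (TL.ovr (W z) τ y.2) z ℓ
      obtain ⟨τ, hτ⟩ := hQ q hQq β T ρ R F (fun z _ => hρ z)
        (by
          rintro z hz z' hz' ⟨hne, v, u, hvu, hv, hu⟩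
          have h1 := ((hT z).1 hz).2.1
          have h2 := ((hT z').1 hz').2.1
          rcases hadj v u hvu with h | h | h | h
          · exact absurd (by rw [← hv, ← hu, h]) hne
          · rw [hv, hu, h1, ← h2] at h
            exact absurd (hP _ _ h) (lt_irrefl _)
          · rw [hv, hu, h2, ← h1] at h
            exact absurd (hP _ _ h) (lt_irrefl _)
          · rw [hv, hu] at h
            exact h.2)
        (by
          intro z hz S hS hSr
          apply hb z S
          intro z' hz'
          obtain ⟨⟨_, hr⟩, hlt⟩ := hSr z' hz'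
          refine ⟨?_, hlt, hr⟩
          rw [((hT z).1 hz).2.1, ((hT z').1 (hS hz')).2.1])
        ht
        (by
          rintro z hz τ₁ τ₂ a h12 ⟨y, hy⟩
          refine ⟨y, fun ℓ hℓ haℓ => ?_⟩
          obtain ⟨v, hv, hav⟩ := hy ℓ hℓ haℓ
          refine ⟨v, hv, ?_⟩
          have : g v (view y.1 (TL.ovr (W z) τ₂ y.2) z (res β z a) (fun _ => ℓ) (fun _ _ => ∅)) =
              g v (view y.1 (TL.ovr (W z) τ₁ y.2) z (res β z a) (fun _ => ℓ)
                (fun _ _ => ∅)) := by
            apply hg v
            intro u huv
            simp only [view]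
            by_cases h1 : β u = z
            · rw [if_pos h1, if_pos h1]
            · rw [if_neg h1, if_neg h1]
              by_cases h2 : β u ∈ K
              · rw [if_pos h2, if_pos h2]
              · rw [if_neg h2, if_neg h2]
                by_cases h3 : P (β u) = K
                · rw [if_pos h3, if_pos h3]
                  unfold TL.ovr
                  by_cases h4 : u ∈ W z
                  · rw [dif_pos h4, dif_pos h4]
                  · rw [dif_neg h4, dif_neg h4]
                    have hR : R z (β u) := ⟨fun h => h1 h.symm, v, u, huv, hv, rfl⟩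
                    refine (h12 u ((hT _).2 ⟨hM u, h3, fun h5 => h4 ?_⟩) hR).symm
                    exact Finset.mem_filter.2 ⟨Finset.mem_univ _, h3, h5, hR⟩
                · rw [if_neg h3, if_neg h3]
          rw [this]
          exact hav)
        (by
          rintro z hz τ₁ a a' haa ⟨y, hy⟩
          have : res β z a = res β z a' := by
            funext v
            unfold res
            split_ifs with h
            · exact haa v h
            · rfl
          refine ⟨y, ?_⟩
          rw [← this]
          exact hy)
        (by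
          intro z hz τ₁
          apply hU q (Bl z) (hBlc z) (ι := A × (W z → Fin (q₁ + 1)))
          · rw [Fintype.card_prod, Fintype.card_coe, Fintype.card_fun, Fintype.card_fin,
              Fintype.card_coe]
            exact Nat.mul_le_mul hA (Nat.pow_le_pow_right (Nat.succ_pos _) (hW z hz))
          · intro y a a' haa
            have : res β z a = res β z a' := by
              funext v
              unfold res
              split_ifs with h
              · exact haa v ((hBl z v).2 h)
              · rfl
            rw [this]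
            exact fun h => h
          · intro y σ hσ hσq
            obtain ⟨x, hx⟩ := hcl y.1 (TL.ovr (W z) τ₁ y.2) z
              (fun _ => Finset.univ.image (pt (Bl z) σ)) (fun _ _ => ∅) σ hσ
            refine ⟨x, fun h => ?_⟩
            have h1 : res β z (fun v => σ v (x v)) = pt (Bl z) σ x := by
              funext v
              unfold res pt
              by_cases h2 : β v = z
              · rw [if_pos h2, if_pos ((hBl z v).2 h2)]
              · rw [if_neg h2, if_neg (fun h3 => h2 ((hBl z v).1 h3))]
            simp only [h1] at h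
            obtain ⟨v, hv, hav⟩ := h _ ⟨σ, hσ, hσq, rfl⟩
              (Finset.mem_image_of_mem _ (Finset.mem_univ x))
            exact hx v hv hav)
      -- the blocks of rank zero
      let Bad : (V → ℕ) → ℕ → Finset (V → ℕ) → (ℕ → Finset ((V → ℕ) × (V → ℕ))) →
          (ℕ → Finset ((V → ℕ) × (V → ℕ))) → Set (V → ℕ) := fun κ i ℓ low hi =>
        {a | P i = K ∧ ρ i = 0 ∧ ∃ v, β v = i ∧ a v ∈ g v (view κ τ i a
          (fun u => if u = i then ℓ else ∅) (fun w u => if u = i then low w else hi u))}
      obtain ⟨γ, hγ⟩ := lemmaA m M A (fun i => Boxes (Bl i) (q₁ + 1) k)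
        (fun i L hL => boxes_card (hBlc i) hk1 hL) Bad
        (by
          intro κ _ i ℓ low hi L hL
          obtain ⟨σ, hσ, _, rfl⟩ := hL
          obtain ⟨x, hx⟩ := hcl κ τ i (fun u => if u = i then ℓ else ∅)
            (fun w u => if u = i then low w else hi u) σ hσ
          refine ⟨pt (Bl i) σ x, Finset.mem_image_of_mem _ (Finset.mem_univ x), ?_⟩
          rintro ⟨_, _, v, hvi, hv⟩
          exact hx v hvi hv)
        (fun i b hb => hcov _ (hBlc i) A hA b hb)
      -- the colours of all children
      let γf : ℕ → V → ℕ := fun i => if ρ i = 0 then γ i else res β i τ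
      refine ⟨fun u => γf (β u) u, fun κ hκ => ?_⟩
      obtain ⟨L, S, h1, h2, h3⟩ := hγ κ hκ
      have hγq : ∀ v, γ (β v) v < q₁ + 1 := by
        intro v
        obtain ⟨⟨σ, _, hσq, hL⟩, hγL⟩ := h1 (β v) (hM v)
        rw [hL] at hγL
        obtain ⟨x, _, hx⟩ := Finset.mem_image.1 hγL
        rw [← hx]
        simp only [pt, (hBl (β v) v).2 rfl, if_true]
        exact hσq v _
      let y : (z : ℕ) → W z → Fin (q₁ + 1) := fun z v => ⟨γ (β v) v, hγq v⟩
      have hℓ : ∀ z, ∃ ℓ : Finset (V → ℕ), (z ∈ T → ℓ ∈ Boxes (Bl z) q k ∧ res β z τ ∈ ℓ ∧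
          res β z τ ∉ BadT κ (TL.ovr (W z) τ (y z)) z ℓ) ∧
          (z ∉ T → ρ z ≠ 0 → ℓ = {res β z τ}) := by
        intro z
        by_cases hz : z ∈ T
        · have h4 := hτ z hz
          simp only [F] at h4
          push Not at h4
          obtain ⟨ℓ, h5, h6, h7⟩ := h4 (⟨κ, hκ⟩, y z)
          exact ⟨ℓ, fun _ => ⟨h5, h6, h7⟩, fun h => absurd hz h⟩
        · exact ⟨{res β z τ}, fun h => absurd h hz, fun _ _ => rfl⟩
      choose ℓ hℓ1 hℓ2 using hℓ
      have hℓc : ∀ z, ρ z ≠ 0 → (ℓ z).card ≤ m ∧ res β z τ ∈ ℓ z := by
        intro z hz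
        by_cases hzT : z ∈ T
        · exact ⟨boxes_card (hBlc z) hk1 (hℓ1 z hzT).1, (hℓ1 z hzT).2.1⟩
        · rw [hℓ2 z hzT hz]
          exact ⟨by rw [Finset.card_singleton]; exact hm1, Finset.mem_singleton_self _⟩
      let Lf : ℕ → Finset (V → ℕ) := fun i => if ρ i = 0 then L i else ℓ i
      let Sf : ℕ → ℕ → Finset ((V → ℕ) × (V → ℕ)) := fun w v =>
        if ρ w = 0 ∧ ρ v = 0 then S w v else {(γf w, γf v)}
      -- the colourings below the child sets
      have hcQ : ∀ Q : Finset ℕ, ∃ c : V → ℕ, (Q.Nonempty ∧ ∀ j ∈ Q, P j = K) → Q.card ≤ 2 →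
          Q.sup id < M → (∀ v, β v ∈ Q → c v = γf (β v) v) ∧
            (∀ v, P (β v) = Q → c v = Γ Q (hint β Lf Sf Q) v) ∧
            ∀ v, Desc P Q (β v) → c v < q ∧ c v ∉ g v c := by
        intro Q
        by_cases h : (Q.Nonempty ∧ ∀ j ∈ Q, P j = K) ∧ Q.card ≤ 2 ∧ Q.sup id < M
        · obtain ⟨hQ, hQ2, hQM⟩ := h
          obtain ⟨h4, h5⟩ := pick_mem β (L := Lf) (J := Sf) (γ := γf) (M := M) (m := m)
            (by
              intro v hv
              by_cases h0 : ρ v = 0
              · simp only [γf, Lf, h0, if_true]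
                exact (h1 v hv).2
              · simp only [γf, Lf, h0, if_false]
                exact (hℓc v h0).2)
            (by
              intro w v hwv hv
              by_cases h0 : ρ w = 0 ∧ ρ v = 0
              · simp only [Sf, γf, h0.1, h0.2, and_self, if_true]
                exact h2 w v hwv hv
              · simp only [Sf, h0, if_false]
                exact ⟨Finset.mem_singleton_self _, by
                  rw [Finset.card_singleton]
                  exact le_trans hm1 hmmm⟩)
            (by
              intro v hv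
              by_cases h0 : ρ v = 0
              · simp only [Lf, h0, if_true]
                exact boxes_card (hBlc v) hk1 (h1 v hv).1
              · simp only [Lf, h0, if_false]
                exact (hℓc v h0).1) hm1 hQ.1 hQ2 hQM
          obtain ⟨c, hc1, hc2, hc3⟩ := hΓ Q (hint β Lf Sf Q) hQ h5 _ h4
          refine ⟨c, fun _ _ _ => ⟨fun v hvQ => ?_, hc2, hc3⟩⟩
          rw [hc1 v hvQ, pick_eq β γf hQ.1 hQ2 hvQ]
        · exact ⟨fun _ => 0, fun h4 h5 h6 => absurd ⟨h4, h5, h6⟩ h⟩
      choose cQ hcQ using hcQ
      let c : V → ℕ := fun u => if β u ∈ K then κ u else if P (β u) = K then γf (β u) u else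
        if h : ∃ Q : Finset ℕ, (Q.Nonempty ∧ ∀ j ∈ Q, P j = K) ∧ Desc P Q (β u) then
          cQ h.choose u else 0
      have hc1 : ∀ u, β u ∈ K → c u = κ u := by
        intro u hu
        simp only [c, hu, if_true]
      have hc2 : ∀ u, P (β u) = K → c u = γf (β u) u := by
        intro u hu
        have h4 : β u ∉ K := by
          intro h
          rw [← hu] at h
          exact lt_irrefl _ (hP _ _ h)
        simp only [c, h4, if_false, hu, if_true]
      have hc3 : ∀ (Q : Finset ℕ) (u : V), (Q.Nonempty ∧ ∀ j ∈ Q, P j = K) → Desc P Q (β u) →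
          c u = cQ Q u := by
        intro Q u hQ hd
        have h4 : β u ∉ K := fun h => Desc.not_mem hP hQ h hd
        have h5 : P (β u) ≠ K := fun h => Desc.not_level hP hQ h hd
        have hex : ∃ Q : Finset ℕ, (Q.Nonempty ∧ ∀ j ∈ Q, P j = K) ∧ Desc P Q (β u) :=
          ⟨Q, hQ, hd⟩
        have h6 : hex.choose = Q :=
          Desc.unique hP hsib hex.choose_spec.1 hQ hex.choose_spec.2 hd
        simp only [c, h4, if_false, h5]
        rw [dif_pos hex, h6]
      have hQM : ∀ (Q : Finset ℕ) (v : V), Desc P Q (β v) → Q.sup id < M := by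
        intro Q v hd
        rw [Finset.sup_lt_iff (by rw [hMdef]; exact Nat.succ_pos _)]
        intro j hj
        exact lt_trans (hd.lt hP j hj) (hM v)
      -- what a child block sees of its child sets
      have hsee : ∀ (i : ℕ) (u : V), P i = K → i ∈ P (β u) →
          c u = Γ (P (β u)) (hint β Lf Sf (P (β u))) u := by
        intro i u hiK hiu
        have hQu : (P (β u)).Nonempty ∧ ∀ j ∈ P (β u), P j = K :=
          ⟨⟨_, hiu⟩, fun j hj => by rw [hsib _ j hj _ hiu, hiK]⟩
        have hdu : Desc P (P (β u)) (β u) := Desc.base _ rfl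
        rw [hc3 _ u hQu hdu]
        exact (hcQ _ hQu (hP2 _) (hQM _ u hdu)).2.1 u rfl
      refine ⟨c, fun v => hc1 v, fun v => hc2 v, fun v hd => ?_⟩
      rcases hd.child hsib with hvK | ⟨Q, hQ, hdQ⟩
      · by_cases h0 : ρ (β v) = 0
        · -- a vertex of rank zero
          have h5 := h3 (β v) (hM v)
          have h7 : g v c = g v (view κ τ (β v) (γ (β v))
              (fun u => if u = β v then L (β v) else ∅)
              (fun w u => if u = β v then S w (β v) else high S (β v) u)) := by
            apply hg v
            intro u huv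
            simp only [view]
            by_cases h8 : β u = β v
            · rw [if_pos h8, hc2 u (by rw [h8]; exact hvK), h8]
              simp only [γf, h0, if_true]
            · rw [if_neg h8]
              by_cases h9 : β u ∈ K
              · rw [if_pos h9, hc1 u h9]
              · rw [if_neg h9]
                by_cases h10 : P (β u) = K
                · rw [if_pos h10, hc2 u h10]
                  have h11 : ρ (β u) ≠ 0 := by
                    rcases hadj v u huv with h | h | h | h
                    · exact absurd h.symm h8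
                    · rw [hvK] at h
                      exact absurd h h9
                    · rw [h10, ← hvK] at h
                      exact absurd (hP _ _ h) (lt_irrefl _)
                    · intro h12
                      exact h.2 (by rw [h0, h12])
                  simp only [γf, h11, if_false, res, if_true]
                · rw [if_neg h10]
                  have h11 : β v ∈ P (β u) := by
                    rcases hadj v u huv with h | h | h | h
                    · exact absurd h.symm h8
                    · rw [hvK] at h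
                      exact absurd h h9
                    · exact h
                    · exact absurd (by rw [← h.1, hvK]) h10
                  rw [if_pos h11, hint_view β L S (hP2 _) h11, hsee _ u hvK h11]
                  have h12 : ∀ j ∈ P (β u), ρ j = 0 := by
                    intro j hj
                    by_cases hc : (P (β u)).card = 2
                    · exact hρ0 _ hc j hj
                    · have hc1 : (P (β u)).card ≤ 1 := by
                        have := hP2 (β u)
                        omega
                      rw [Finset.card_le_one.1 hc1 j hj _ h11]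
                      exact h0
                  rw [hint_congr β (L := Lf) (L' := L) (J := Sf) (J' := S) ⟨_, h11⟩ (hP2 _)
                    (fun j hj => by simp only [Lf, h12 j hj, if_true])
                    (fun _ j hj w hw => by
                      simp only [Sf, h12 j hj, h12 w hw, and_self, if_true])]
          rw [hc2 v hvK, h7]
          have h8 : γf (β v) v = γ (β v) v := by simp only [γf, h0, if_true]
          rw [h8]
          refine ⟨lt_of_lt_of_le (hγq v) hq1, fun h9 => h5 ?_⟩
          exact ⟨hvK, h0, v, rfl, h9⟩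
        · -- a vertex of positive rank
          have hvT : β v ∈ T := (hT _).2 ⟨hM v, hvK, h0⟩
          obtain ⟨h4, h5, h6⟩ := hℓ1 (β v) hvT
          have h7 : g v c = g v (view κ (TL.ovr (W (β v)) τ (y (β v))) (β v) (res β (β v) τ)
              (fun _ => ℓ (β v)) (fun _ _ => ∅)) := by
            apply hg v
            intro u huv
            simp only [view]
            by_cases h8 : β u = β v
            · rw [if_pos h8, hc2 u (by rw [h8]; exact hvK), h8]
              simp only [γf, h0, if_false]
            · rw [if_neg h8]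
              by_cases h9 : β u ∈ K
              · rw [if_pos h9, hc1 u h9]
              · rw [if_neg h9]
                by_cases h10 : P (β u) = K
                · rw [if_pos h10, hc2 u h10]
                  have hR : R (β v) (β u) := ⟨fun h => h8 h.symm, v, u, huv, rfl, rfl⟩
                  unfold TL.ovr
                  by_cases h11 : ρ (β u) = 0
                  · have h12 : u ∈ W (β v) :=
                      Finset.mem_filter.2 ⟨Finset.mem_univ _, h10, h11, hR⟩
                    rw [dif_pos h12]
                    simp only [γf, h11, if_true, y]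
                  · have h12 : u ∉ W (β v) := fun h => h11 (Finset.mem_filter.1 h).2.2.1
                    rw [dif_neg h12]
                    simp only [γf, h11, if_false, res, if_true]
                · rw [if_neg h10]
                  have h11 : β v ∈ P (β u) := by
                    rcases hadj v u huv with h | h | h | h
                    · exact absurd h.symm h8
                    · rw [hvK] at h
                      exact absurd h h9
                    · exact h
                    · exact absurd (by rw [← h.1, hvK]) h10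
                  have hc : (P (β u)).card ≠ 2 := fun hc => h0 (hρ0 _ hc _ h11)
                  have h12 : ∀ j ∈ P (β u), j = β v := fun j hj =>
                    Finset.card_le_one.1 (by have := hP2 (β u); omega) j hj _ h11
                  rw [if_pos h11, hsee _ u hvK h11]
                  rw [hint_congr β (L := Lf) (L' := fun _ => ℓ (β v)) (J := Sf)
                    (J' := fun _ _ => ∅) ⟨_, h11⟩ (hP2 _)
                    (fun j hj => by
                      rw [h12 j hj]
                      simp only [Lf, h0, if_false])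
                    (fun h => absurd h hc)]
          rw [hc2 v hvK, h7]
          have h8 : γf (β v) v = res β (β v) τ v := by simp only [γf, h0, if_false]
          rw [h8]
          refine ⟨?_, fun h9 => h6 ?_⟩
          · obtain ⟨σ, _, hσq, hL⟩ := h4
            rw [hL] at h5
            obtain ⟨x, _, hx⟩ := Finset.mem_image.1 h5
            rw [← hx]
            simp only [pt, (hBl (β v) v).2 rfl, if_true]
            exact hσq v _
          · exact ⟨v, rfl, h9⟩
      · -- a vertex below a child set
        obtain ⟨h4, h5, h6⟩ := hcQ Q hQ (hdQ.card hP2) (hQM Q v hdQ)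
        have h7 : g v c = g v (cQ Q) := by
          apply hg v
          intro u huv
          rcases hadj v u huv with h | h | h | h
          · exact hc3 Q u hQ (by rw [← h]; exact hdQ)
          · cases hdQ with
            | base _ hb =>
              have huQ : β u ∈ Q := by rw [← hb]; exact h
              rw [hc2 u (hQ.2 _ huQ), h4 u huQ]
            | step _ j hj hdj => exact hc3 Q u hQ (hdj.congr (hsib _ j hj _ h))
          · exact hc3 Q u hQ (Desc.step _ _ h hdQ)
          · exact hc3 Q u hQ (hdQ.congr h.1)
        rw [h7, hc3 Q v hQ hdQ]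
        exact h6 v hdQ
  obtain ⟨γ, hγ⟩ := claim M ∅ (by simp) {fun _ => 0} (by
    rw [Finset.card_singleton]
    exact le_trans hm1 hmmm)
  obtain ⟨c, _, _, h⟩ := hγ (fun _ => 0) (Finset.mem_singleton_self _)
  refine ⟨c, fun v => h v ?_⟩
  have : ∀ i, Desc P ∅ i := by
    intro i
    induction i using Nat.strong_induction_on with
    | _ i ih =>
      by_cases h : P i = ∅
      · exact Desc.base i h
      · obtain ⟨j, hj⟩ := Finset.nonempty_iff_ne_empty.2 h
        exact Desc.step i j hj (ih j (hP i j hj))
  exact this _

end Pool.Agent.Lib.MP_994fee_co.Pair
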