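import Mathlib
import Pool.Agent.Lib.MP_994fee_co.Pair.Mixed

/-!
# The hat guessing number is bounded on layered pair-trees
-/

set_option autoImplicit false

namespace Pool.Agent.Lib.MP_994fee_co

open Finset

/-- `G` is a pair-tree with parameter `n`: the vertices lie in blocks of at most `n` vertices (`β v`
is the block of `v`), every block `i` has a set `P i` of at most two parents, which are blocks of
smaller number and have themselves the same parents, and a rank `ρ i < n`; a block that is one of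
two parents has rank zero; every edge joins two vertices of the same block, or of a block and one of
its parents, or of two blocks with the same parents and different ranks; every block has at most `n`
neighbouring blocks with the same parents and smaller rank. -/
def PairTree {V : Type} (n : ℕ) (G : SimpleGraph V) : Prop :=
  ∃ (β : V → ℕ) (P : ℕ → Finset ℕ) (ρ : ℕ → ℕ),
    (∀ i, ∀ j ∈ P i, j < i) ∧ (∀ i, (P i).card ≤ 2) ∧
    (∀ i, ∀ j ∈ P i, ∀ k ∈ P i, P j = P k) ∧ (∀ i, ρ i < n) ∧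
    (∀ i, (P i).card = 2 → ∀ j ∈ P i, ρ j = 0) ∧
    (∀ i, {v | β v = i}.ncard ≤ n) ∧
    (∀ v w, G.Adj v w → β v = β w ∨ β w ∈ P (β v) ∨ β v ∈ P (β w) ∨
      (P (β v) = P (β w) ∧ ρ (β v) ≠ ρ (β w))) ∧
    ∀ i, {j | P j = P i ∧ ρ j < ρ i ∧ ∃ v w, G.Adj v w ∧ β v = i ∧ β w = j}.ncard ≤ n

/-- `G` is pair-layered with parameter `n`: the vertices have levels below `n`, every vertex has at
most `n` neighbours of smaller level, and every level induces a pair-tree with parameter `n`. -/
def PairLayered {V : Type} (n : ℕ) (G : SimpleGraph V) : Prop :=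
  ∃ lev : V → ℕ, (∀ v, lev v < n) ∧ (∀ v, {w | G.Adj v w ∧ lev w < lev v}.ncard ≤ n) ∧
    ∀ i, PairTree n (G.induce {v | lev v = i})

/-- Tree-like graphs are pair-trees. -/
lemma TreeLike.pairTree {V : Type} [Finite V] {n : ℕ} {G : SimpleGraph V} (h : TreeLike n G) :
    PairTree n G := by
  classical
  obtain ⟨β, π, ρ, hβ, hπ, hρ, ht, hadj, hb⟩ := h
  have hmem : ∀ i j, j ∈ (if i = 0 ∨ π i = 0 then (∅ : Finset ℕ) else {π i}) ↔
      i ≠ 0 ∧ π i ≠ 0 ∧ j = π i := by
    intro i j
    split_ifs with h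
    · constructor
      · intro h'
        exact absurd h' (Finset.notMem_empty j)
      · rintro ⟨h1, h2, _⟩
        rcases h with h | h
        · exact absurd h h1
        · exact absurd h h2
    · rw [Finset.mem_singleton]
      push Not at h
      exact ⟨fun h' => ⟨h.1, h.2, h'⟩, fun h' => h'.2.2⟩
  have hcard : ∀ i, (if i = 0 ∨ π i = 0 then (∅ : Finset ℕ) else {π i}).card ≤ 1 := by
    intro i
    split_ifs
    · exact Nat.zero_le _
    · exact le_of_eq (Finset.card_singleton _)
  have heq : ∀ i j, 0 < i → 0 < j → π i = π j →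
      (if i = 0 ∨ π i = 0 then (∅ : Finset ℕ) else {π i}) =
        if j = 0 ∨ π j = 0 then (∅ : Finset ℕ) else {π j} := by
    intro i j hi hj hij
    have h1 : i ≠ 0 := by omega
    have h2 : j ≠ 0 := by omega
    simp only [h1, h2, false_or, hij]
  refine ⟨β, fun i => if i = 0 ∨ π i = 0 then ∅ else {π i}, ρ, ?_, ?_, ?_, hρ, ?_, ht, ?_, ?_⟩
  · intro i j hj
    obtain ⟨h1, _, h3⟩ := (hmem i j).1 hj
    rw [h3]
    exact hπ i (by omega)
  · intro i
    exact le_trans (hcard i) (by norm_num)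
  · intro i j hj k hk
    rw [Finset.card_le_one.1 (hcard i) j hj k hk]
  · intro i hi
    have := hcard i
    simp only at hi
    omega
  · intro v w hvw
    rcases hadj v w hvw with h | h | h | ⟨h, h'⟩
    · exact Or.inl h
    · have h1 := hβ v
      have h2 := hβ w
      exact Or.inr (Or.inl ((hmem _ _).2 ⟨by omega, by omega, h.symm⟩))
    · have h1 := hβ v
      have h2 := hβ w
      exact Or.inr (Or.inr (Or.inl ((hmem _ _).2 ⟨by omega, by omega, h.symm⟩)))
    · exact Or.inr (Or.inr (Or.inr ⟨heq _ _ (hβ v) (hβ w) h, h'⟩))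
  · intro i
    refine le_trans (Set.ncard_le_ncard ?_ ?_) (hb i)
    · rintro j ⟨h1, h2, v, w, hvw, hv, hw⟩
      simp only at h1
      refine ⟨?_, h2, v, w, hvw, hv, hw⟩
      have hi : 0 < i := by rw [← hv]; exact hβ v
      have hj : 0 < j := by rw [← hw]; exact hβ w
      by_cases h3 : π i = 0
      · by_contra h4
        have h5 : π j ∈ (if j = 0 ∨ π j = 0 then (∅ : Finset ℕ) else {π j}) :=
          (hmem _ _).2 ⟨by omega, by rw [h3] at h4; exact h4, rfl⟩
        rw [h1] at h5
        exact ((hmem _ _).1 h5).2.1 h3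
      · have h5 : π i ∈ (if i = 0 ∨ π i = 0 then (∅ : Finset ℕ) else {π i}) :=
          (hmem _ _).2 ⟨by omega, h3, rfl⟩
        rw [← h1] at h5
        exact ((hmem _ _).1 h5).2.2.symm
    · refine Set.Finite.subset (Set.finite_range β) ?_
      rintro j ⟨_, _, v, w, _, _, hw⟩
      exact ⟨w, hw⟩

/-- Layered tree-like graphs are pair-layered. -/
lemma Layered.pairLayered {V : Type} [Finite V] {n : ℕ} {G : SimpleGraph V} (h : Layered n G) :
    PairLayered n G := by
  obtain ⟨lev, h1, h2, h3⟩ := h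
  exact ⟨lev, h1, h2, fun i => (h3 i).pairTree⟩

namespace Pair

open TL

/-- The pair-tree structure on a set of vertices. -/
def PairOn {V : Type} (n : ℕ) (G : SimpleGraph V) (S : Finset V) : Prop :=
  ∃ (β : V → ℕ) (P : ℕ → Finset ℕ) (ρ : ℕ → ℕ),
    (∀ i, ∀ j ∈ P i, j < i) ∧ (∀ i, (P i).card ≤ 2) ∧
    (∀ i, ∀ j ∈ P i, ∀ k ∈ P i, P j = P k) ∧ (∀ i, ρ i < n) ∧
    (∀ i, (P i).card = 2 → ∀ j ∈ P i, ρ j = 0) ∧
    (∀ i, (S.filter (fun v => β v = i)).card ≤ n) ∧
    (∀ v ∈ S, ∀ w ∈ S, G.Adj v w → β v = β w ∨ β w ∈ P (β v) ∨ β v ∈ P (β w) ∨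
      (P (β v) = P (β w) ∧ ρ (β v) ≠ ρ (β w))) ∧
    ∀ i, ∀ T : Finset ℕ, (∀ j ∈ T, P j = P i ∧ ρ j < ρ i ∧
      ∃ v ∈ S, ∃ w ∈ S, G.Adj v w ∧ β v = i ∧ β w = j) → T.card ≤ n

lemma pairOn_loses (n s : ℕ) : ∃ q : ℕ, 0 < q ∧ ∀ {V : Type} (G : SimpleGraph V) (S : Finset V),
    PairOn n G S → LosesOn G S s q := by
  classical
  obtain ⟨Q, hQ⟩ := main2 n s
  refine ⟨Q + 1, Nat.succ_pos Q, ?_⟩
  rintro V G S ⟨β, P, ρ, hP, hP2, hsib, hρ, hρ0, ht, hadj, hb⟩ g hg hgs
  let ext : (S → ℕ) → V → ℕ := fun c v => if h : v ∈ S then c ⟨v, h⟩ else 0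
  have hext : ∀ (c : S → ℕ) (v : S), ext c v = c v := by
    intro c v
    simp only [ext, v.2, dif_pos]
  obtain ⟨c, hc⟩ := hQ (Q + 1) (Nat.le_succ Q) (V := S)
    (G.comap (fun v : S => (v : V))) (fun v => β v) P ρ hP hP2 hsib hρ hρ0
    (by
      intro i
      refine le_trans ?_ (ht i)
      refine Finset.card_le_card_of_injOn (fun v : S => (v : V)) ?_ ?_
      · intro v hv
        have := (Finset.mem_filter.1 (Finset.mem_coe.1 hv)).2
        exact Finset.mem_coe.2 (Finset.mem_filter.2 ⟨v.2, this⟩)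
      · intro v _ w _ hvw
        exact Subtype.ext hvw)
    (fun v w hvw => hadj v v.2 w w.2 hvw)
    (by
      intro i T hT
      apply hb i T
      intro j hj
      obtain ⟨h1, h2, v, w, hvw, hv, hw⟩ := hT j hj
      exact ⟨h1, h2, v, v.2, w, w.2, hvw, hv, hw⟩)
    (fun v c => g v (ext c))
    (by
      intro v c c' hcc
      apply hg v v.2
      intro u hu hvu
      have := hcc ⟨u, hu⟩ hvu
      simp only [ext, hu, dif_pos]
      exact this)
    (fun v c => hgs v v.2 _)
  refine ⟨ext c, ?_, ?_⟩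
  · intro v
    simp only [ext]
    split_ifs
    · exact (hc _).1
    · exact Nat.succ_pos Q
  · intro v hv
    have := (hc ⟨v, hv⟩).2
    rw [hext c ⟨v, hv⟩]
    exact this

lemma levels2 (n : ℕ) : ∀ M s : ℕ, ∃ q : ℕ, ∀ {V : Type} [Fintype V] [DecidableEq V]
    (G : SimpleGraph V) (X : Finset V) (lev : V → ℕ), (∀ v ∈ X, lev v < M) →
    (∀ v ∈ X, {w | w ∈ X ∧ G.Adj v w ∧ lev w < lev v}.ncard ≤ n) →
    (∀ i, PairOn n G (X.filter (fun v => lev v = i))) → LosesOn G X s q := by
  intro M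
  induction M with
  | zero =>
    intro s
    refine ⟨1, ?_⟩
    intro V _ _ G X lev h1 _ _ g _ _
    exact ⟨fun _ => 0, fun _ => Nat.zero_lt_one, fun v hv => absurd (h1 v hv) (Nat.not_lt_zero _)⟩
  | succ M ih =>
    intro s
    obtain ⟨K₁, hK₁, hT⟩ := pairOn_loses n s
    obtain ⟨K₂, hK₂⟩ := ih (s * K₁ ^ n)
    refine ⟨max K₁ K₂, ?_⟩
    intro V _ _ G X lev h1 h2 h3
    have hsd : ∀ v, v ∈ X \ X.filter (fun v => lev v = 0) ↔ v ∈ X ∧ lev v ≠ 0 := by
      intro v
      rw [Finset.mem_sdiff, Finset.mem_filter]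
      tauto
    refine LosesOn.step (Y := X.filter (fun v => lev v = 0)) (Finset.filter_subset _ _)
      (B := n) ?_ hK₁ (hT G _ (h3 0)) ?_
    · intro x hx
      obtain ⟨hxX, hx0⟩ := (hsd x).1 hx
      refine le_trans (Set.ncard_le_ncard ?_ (Set.toFinite _)) (h2 x hxX)
      rintro w ⟨hw, hxw⟩
      have := Finset.mem_filter.1 hw
      exact ⟨this.1, hxw, by rw [this.2]; omega⟩
    · refine hK₂ G _ (fun v => lev v - 1) ?_ ?_ ?_
      · intro v hv
        obtain ⟨hvX, hv0⟩ := (hsd v).1 hv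
        have := h1 v hvX
        show lev v - 1 < M
        omega
      · intro v hv
        obtain ⟨hvX, hv0⟩ := (hsd v).1 hv
        refine le_trans (Set.ncard_le_ncard ?_ (Set.toFinite _)) (h2 v hvX)
        rintro w ⟨hw, hvw, hlt⟩
        obtain ⟨hwX, hw0⟩ := (hsd w).1 hw
        have hlt' : lev w - 1 < lev v - 1 := hlt
        exact ⟨hwX, hvw, by omega⟩
      · intro i
        have : (X \ X.filter (fun v => lev v = 0)).filter (fun v => lev v - 1 = i) =
            X.filter (fun v => lev v = i + 1) := by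
          ext v
          rw [Finset.mem_filter, hsd, Finset.mem_filter]
          constructor
          · rintro ⟨⟨h4, h5⟩, h6⟩
            exact ⟨h4, by omega⟩
          · rintro ⟨h4, h5⟩
            exact ⟨⟨h4, by omega⟩, by omega⟩
        rw [this]
        exact h3 (i + 1)

/-- If the players lose on all vertices with the palette of size `q₀`, there is no winning strategy
for `q ≥ q₀` colours. -/
lemma not_winning {V : Type} [Fintype V] {G : SimpleGraph V} {q₀ : ℕ}
    (hL : LosesOn G Finset.univ 1 q₀) {q : ℕ} (hq : q₀ ≤ q) (hq0 : 0 < q) :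
    ¬ ∃ st, IsWinning G q st := by
  classical
  rintro ⟨st, hst⟩
  obtain ⟨c, hc, hc'⟩ := hL
    (fun v c => {((st v (fun u => ⟨c u % q, Nat.mod_lt _ hq0⟩) : Fin q) : ℕ)})
    (by
      intro v _ c c' hcc
      have : st v (fun u => ⟨c u % q, Nat.mod_lt _ hq0⟩) =
          st v (fun u => ⟨c' u % q, Nat.mod_lt _ hq0⟩) := by
        apply hst.1
        intro w hw
        have := hcc w (Finset.mem_univ w) hw
        simp only [this]
      simp only [this])
    (by
      intro v _ c
      exact le_of_eq (Finset.card_singleton _))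
  have hcq : ∀ u, c u < q := fun u => lt_of_lt_of_le (hc u) hq
  obtain ⟨v, hv⟩ := hst.2 (fun u => ⟨c u % q, Nat.mod_lt _ hq0⟩)
  apply hc' v (Finset.mem_univ v)
  rw [Finset.mem_singleton, hv]
  exact (Nat.mod_eq_of_lt (hcq v)).symm

end Pair

/-- The hat guessing number is bounded on pair-layered graphs. -/
theorem hat_pairLayered (n : ℕ) : ∃ q₀ : ℕ, ∀ (V : Type) [Fintype V] (G : SimpleGraph V),
    PairLayered n G → ∀ q : ℕ, (∃ s, IsWinning G q s) → q < q₀ := by
  classical
  obtain ⟨q₀, hq₀⟩ := Pair.levels2 n n 1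
  refine ⟨q₀ + 1, ?_⟩
  rintro V _ G ⟨lev, h1, h2, h3⟩ q hst
  by_contra hq
  refine Pair.not_winning (q₀ := q₀) ?_ (q := q) (by omega) (by omega) hst
  apply hq₀ G Finset.univ lev (fun v _ => h1 v)
  · intro v _
    refine le_trans (Set.ncard_le_ncard ?_ (Set.toFinite _)) (h2 v)
    rintro w ⟨_, hw⟩
    exact hw
  · intro i
    obtain ⟨β, P, ρ, hP, hP2, hsib, hρ, hρ0, ht, hadj, hb⟩ := h3 i
    by_cases hn : n = 0
    · exact absurd (hρ 0) (by omega)
    refine ⟨fun v => if h : lev v = i then β ⟨v, h⟩ else 0, P, ρ, hP, hP2, hsib, hρ, hρ0, ?_, ?_,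
      ?_⟩
    · intro j
      refine le_trans ?_ (ht j)
      rw [← Set.ncard_image_of_injective {v : {v | lev v = i} | β v = j} Subtype.val_injective,
        ← Set.ncard_coe_finset]
      refine Set.ncard_le_ncard ?_ (Set.toFinite _)
      intro v hv
      have h4 := Finset.mem_filter.1 (Finset.mem_coe.1 hv)
      have hvi : lev v = i := (Finset.mem_filter.1 h4.1).2
      refine ⟨⟨v, hvi⟩, ?_, rfl⟩
      have h5 := h4.2
      simp only [hvi, dif_pos] at h5
      exact h5
    · intro v hv w hw hvw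
      have hvi : lev v = i := (Finset.mem_filter.1 hv).2
      have hwi : lev w = i := (Finset.mem_filter.1 hw).2
      have := hadj ⟨v, hvi⟩ ⟨w, hwi⟩ hvw
      simp only [hvi, hwi, dif_pos]
      exact this
    · intro j T hT
      refine le_trans ?_ (hb j)
      rw [← Set.ncard_coe_finset]
      refine Set.ncard_le_ncard ?_ ?_
      · intro k hk
        obtain ⟨h4, h5, v, hv, w, hw, hvw, hv1, hw1⟩ := hT k (Finset.mem_coe.1 hk)
        have hvi : lev v = i := (Finset.mem_filter.1 hv).2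
        have hwi : lev w = i := (Finset.mem_filter.1 hw).2
        simp only [hvi, hwi, dif_pos] at hv1 hw1
        exact ⟨h4, h5, ⟨v, hvi⟩, ⟨w, hwi⟩, hvw, hv1, hw1⟩
      · refine Set.Finite.subset (Set.finite_range β) ?_
        rintro k ⟨_, _, v, w, _, _, hw⟩
        exact ⟨w, hw⟩

/-- The case `n = 1`: the hat guessing number is at most four. -/
theorem hat_one (V : Type) [Fintype V] (G : SimpleGraph V) (h : PairLayered 1 G) (q : ℕ)
    (hst : ∃ s, IsWinning G q s) : q < 5 := by
  classical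
  by_contra hq
  obtain ⟨lev, h1, _, h3⟩ := h
  have hlev : ∀ v, lev v = 0 := fun v => Nat.lt_one_iff.1 (h1 v)
  obtain ⟨β, P, ρ, hP, hP2, hsib, hρ, _, ht, hadj, _⟩ := h3 0
  let e : V → {v | lev v = 0} := fun v => ⟨v, hlev v⟩
  refine Pair.not_winning (q₀ := 5) ?_ (q := q) (by omega) (by omega) hst
  intro g hg hgs
  obtain ⟨c, hc⟩ := Pair.recursion 1 1 5 2 2 (le_refl _) (by norm_num) (Pair.cov_one V) G
    Finset.univ (fun v => β (e v)) P hP hP2 hsib
    (by
      intro i
      refine le_trans ?_ (ht i)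
      rw [← Set.ncard_coe_finset]
      refine Set.ncard_le_ncard_of_injOn e ?_ ?_ (Set.toFinite _)
      · intro v hv
        exact (Finset.mem_filter.1 (Finset.mem_coe.1 hv)).2
      · intro v _ w _ hvw
        exact congrArg Subtype.val hvw)
    (by
      intro v _ w _ hvw
      rcases hadj (e v) (e w) hvw with h | h | h | ⟨_, h⟩
      · exact Or.inl h
      · exact Or.inr (Or.inl h)
      · exact Or.inr (Or.inr h)
      · exact absurd ((Nat.lt_one_iff.1 (hρ _)).trans (Nat.lt_one_iff.1 (hρ _)).symm) h)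
    g hg hgs
  exact ⟨c, fun v => (hc v (Finset.mem_univ v)).1, fun v hv => (hc v hv).2⟩

/-- The hat guessing number is bounded on pair-layered graphs, and the bound is `HG ≤ 4` for the
parameter `n = 1`. -/
theorem hat_pairLayered' : ∃ q₀ : ℕ → ℕ, q₀ 1 = 5 ∧
    ∀ (n : ℕ) (V : Type) [Fintype V] (G : SimpleGraph V), PairLayered n G →
      ∀ q : ℕ, (∃ s, IsWinning G q s) → q < q₀ n := by
  choose f hf using hat_pairLayered
  refine ⟨fun n => if n = 1 then 5 else f n, rfl, fun n V _ G hG q hst => ?_⟩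
  by_cases hn : n = 1
  · subst hn
    exact hat_one V G hG q hst
  · simp only [hn, if_false]
    exact hf n V G hG q hst

end Pool.Agent.Lib.MP_994fee_co
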