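import Mathlib
import Pool.Agent.Lib.MP_994fee_co.Pair.Layers

/-!
# The bound `HG ≤ 4` for the parameter `n = 1` is attained
-/

set_option autoImplicit false

namespace Pool.Agent.Lib.MP_994fee_co.Pair.Sharp

open Finset

/-- The functions that the children of a pair use. -/
abbrev Gs : Type := Fin 4 × Fin 4 → Fin 4

/-- A colouring of the children of a pair. -/
abbrev Rel : Type := Gs → Fin 4

/-- The guessing functions of the second vertices. -/
abbrev Psi : Type := Rel → Fin 4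

/-- What a first vertex sees. -/
abbrev View : Type := Psi → Rel

/-- The guessing functions of the first vertices. -/
abbrev Phi : Type := View → Fin 4

/-- The vertices: first vertices, second vertices, children of pairs. -/
abbrev Vx : Type := (Phi ⊕ (Phi × Psi)) ⊕ (Phi × Psi × Gs)

/-- A first or second vertex and a child: adjacency. -/
def Parent : Vx → Vx → Prop
  | Sum.inl (Sum.inl φ), Sum.inr (φ', _, _) => φ = φ'
  | Sum.inl (Sum.inr (φ, ψ)), Sum.inr (φ', ψ', _) => φ = φ' ∧ ψ = ψ'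
  | _, _ => False

/-- The graph. -/
def Gr : SimpleGraph Vx where
  Adj x y := Parent x y ∨ Parent y x
  symm := ⟨fun _ _ h => h.symm⟩
  loopless := ⟨fun x h => by
    rcases x with (φ | ⟨φ, ψ⟩) | ⟨φ, ψ, g⟩ <;> simp [Parent] at h⟩

/-- The strategy. -/
def strat : Vx → (Vx → Fin 4) → Fin 4
  | Sum.inl (Sum.inl φ), c => φ (fun ψ g => c (Sum.inr (φ, ψ, g)))
  | Sum.inl (Sum.inr (φ, ψ)), c => ψ (fun g => c (Sum.inr (φ, ψ, g)))
  | Sum.inr (φ, ψ, g), c => g (c (Sum.inl (Sum.inl φ)), c (Sum.inl (Sum.inr (φ, ψ))))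

lemma strat_local (v : Vx) (c c' : Vx → Fin 4) (h : ∀ w, Gr.Adj v w → c w = c' w) :
    strat v c = strat v c' := by
  rcases v with (φ | ⟨φ, ψ⟩) | ⟨φ, ψ, g⟩
  · simp only [strat]
    congr 1
    funext ψ g
    exact h _ (Or.inl rfl)
  · simp only [strat]
    congr 1
    funext g
    exact h _ (Or.inl ⟨rfl, rfl⟩)
  · simp only [strat]
    rw [h (Sum.inl (Sum.inl φ)) (Or.inr rfl), h (Sum.inl (Sum.inr (φ, ψ))) (Or.inr ⟨rfl, rfl⟩)]

/-- The diagonal argument. -/
lemma strat_wins (c : Vx → Fin 4) : ∃ v, strat v c = c v := by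
  classical
  by_contra hcon
  push Not at hcon
  let cw : Phi → Fin 4 := fun φ => c (Sum.inl (Sum.inl φ))
  let e : Phi → Psi → Fin 4 := fun φ ψ => c (Sum.inl (Sum.inr (φ, ψ)))
  let h : Phi → View := fun φ ψ g => c (Sum.inr (φ, ψ, g))
  have hw : ∀ φ, φ (h φ) ≠ cw φ := fun φ => hcon (Sum.inl (Sum.inl φ))
  have hz : ∀ φ ψ, ψ (h φ ψ) ≠ e φ ψ := fun φ ψ => hcon (Sum.inl (Sum.inr (φ, ψ)))
  have hx : ∀ φ ψ g, g (cw φ, e φ ψ) ≠ h φ ψ g := fun φ ψ g => hcon (Sum.inr (φ, ψ, g))
  -- two first vertices with the same view and different colours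
  obtain ⟨φ₀, φ₁, hV, hne⟩ : ∃ φ₀ φ₁, h φ₀ = h φ₁ ∧ cw φ₀ ≠ cw φ₁ := by
    by_contra h1
    push Not at h1
    let φs : Phi := fun V => if hex : ∃ φ, h φ = V then cw hex.choose else 0
    have hex : ∃ φ, h φ = h φs := ⟨φs, rfl⟩
    have h2 : φs (h φs) = cw hex.choose := dif_pos hex
    exact hw φs (h2.trans (h1 _ _ hex.choose_spec))
  let V : View := h φ₀
  have hV1 : ∀ ψ, h φ₁ ψ = V ψ := fun ψ => congrFun hV.symm ψ
  -- a relation on which both kinds of second vertices have two colours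
  obtain ⟨R, ⟨a, a', ha, ha', haa⟩, b, b', hb, hb', hbb⟩ : ∃ R : Rel,
      (∃ ψ ψ', V ψ = R ∧ V ψ' = R ∧ e φ₀ ψ ≠ e φ₀ ψ') ∧
      ∃ ψ ψ', V ψ = R ∧ V ψ' = R ∧ e φ₁ ψ ≠ e φ₁ ψ' := by
    by_contra h1
    push Not at h1
    let A : Rel → Prop := fun R => ∃ ψ ψ', V ψ = R ∧ V ψ' = R ∧ e φ₀ ψ ≠ e φ₀ ψ'
    let ψs : Psi := fun R => if hex : ∃ ψ, V ψ = R then
      (if A R then e φ₁ hex.choose else e φ₀ hex.choose) else 0
    have hex : ∃ ψ, V ψ = V ψs := ⟨ψs, rfl⟩
    have h2 : ψs (V ψs) = if A (V ψs) then e φ₁ hex.choose else e φ₀ hex.choose := dif_pos hex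
    by_cases hA : A (V ψs)
    · rw [if_pos hA] at h2
      have h3 := h1 (V ψs) hA hex.choose ψs hex.choose_spec rfl
      apply hz φ₁ ψs
      rw [hV1, h2, h3]
    · rw [if_neg hA] at h2
      have h3 : e φ₀ hex.choose = e φ₀ ψs := by
        by_contra h4
        exact hA ⟨hex.choose, ψs, hex.choose_spec, rfl, h4⟩
      apply hz φ₀ ψs
      show ψs (V ψs) = e φ₀ ψs
      rw [h2, h3]
  -- the four pairs
  let p₁ : Fin 4 × Fin 4 := (cw φ₀, e φ₀ a)
  let p₂ : Fin 4 × Fin 4 := (cw φ₀, e φ₀ a')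
  let p₃ : Fin 4 × Fin 4 := (cw φ₁, e φ₁ b)
  let p₄ : Fin 4 × Fin 4 := (cw φ₁, e φ₁ b')
  have h21 : p₂ ≠ p₁ := fun h => haa (congrArg Prod.snd h).symm
  have h31 : p₃ ≠ p₁ := fun h => hne (congrArg Prod.fst h).symm
  have h32 : p₃ ≠ p₂ := fun h => hne (congrArg Prod.fst h).symm
  have h41 : p₄ ≠ p₁ := fun h => hne (congrArg Prod.fst h).symm
  have h42 : p₄ ≠ p₂ := fun h => hne (congrArg Prod.fst h).symm
  have h43 : p₄ ≠ p₃ := fun h => hbb (congrArg Prod.snd h).symm
  let g : Gs := fun p => if p = p₁ then 0 else if p = p₂ then 1 else if p = p₃ then 2 else 3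
  have g1 : g p₁ = 0 := if_pos rfl
  have g2 : g p₂ = 1 := by
    show (if p₂ = p₁ then (0 : Fin 4) else if p₂ = p₂ then 1 else if p₂ = p₃ then 2 else 3) = 1
    rw [if_neg h21, if_pos rfl]
  have g3 : g p₃ = 2 := by
    show (if p₃ = p₁ then (0 : Fin 4) else if p₃ = p₂ then 1 else if p₃ = p₃ then 2 else 3) = 2
    rw [if_neg h31, if_neg h32, if_pos rfl]
  have g4 : g p₄ = 3 := by
    show (if p₄ = p₁ then (0 : Fin 4) else if p₄ = p₂ then 1 else if p₄ = p₃ then 2 else 3) = 3
    rw [if_neg h41, if_neg h42, if_neg h43]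
  have r1 : R g ≠ 0 := by
    have := hx φ₀ a g
    change g p₁ ≠ V a g at this
    rw [g1, ha] at this
    exact this.symm
  have r2 : R g ≠ 1 := by
    have := hx φ₀ a' g
    change g p₂ ≠ V a' g at this
    rw [g2, ha'] at this
    exact this.symm
  have r3 : R g ≠ 2 := by
    have := hx φ₁ b g
    rw [hV1] at this
    change g p₃ ≠ V b g at this
    rw [g3, hb] at this
    exact this.symm
  have r4 : R g ≠ 3 := by
    have := hx φ₁ b' g
    rw [hV1] at this
    change g p₄ ≠ V b' g at this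
    rw [g4, hb'] at this
    exact this.symm
  have : ∀ x : Fin 4, x ≠ 0 → x ≠ 1 → x ≠ 2 → x ≠ 3 → False := by
    intro x h0 h1 h2 h3
    fin_cases x
    · exact h0 rfl
    · exact h1 rfl
    · exact h2 rfl
    · exact h3 rfl
  exact this _ r1 r2 r3 r4

lemma strat_winning : IsWinning Gr 4 strat := ⟨strat_local, strat_wins⟩

section Abstract

variable {Y X : Type} [Finite Y] [Finite X]

/-- The numbering of the vertices: first the parents, then the children. -/
noncomputable def num (Y X : Type) [Finite Y] [Finite X] : Y ⊕ X → ℕ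
  | Sum.inl y => (Finite.equivFin Y y : ℕ)
  | Sum.inr x => Nat.card Y + (Finite.equivFin X x : ℕ)

lemma num_inl_lt (y : Y) : num Y X (Sum.inl y) < Nat.card Y :=
  (Finite.equivFin Y y).2

lemma le_num_inr (x : X) : Nat.card Y ≤ num Y X (Sum.inr x) := Nat.le_add_right _ _

lemma num_inj : Function.Injective (num Y X) := by
  intro x y h
  rcases x with x | x <;> rcases y with y | y
  · have : Finite.equivFin Y x = Finite.equivFin Y y := Fin.ext h
    rw [(Finite.equivFin _).injective this]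
  · have h1 := num_inl_lt (X := X) x
    have h2 := le_num_inr (Y := Y) y
    omega
  · have h1 := num_inl_lt (X := X) y
    have h2 := le_num_inr (Y := Y) x
    omega
  · have : Finite.equivFin X x = Finite.equivFin X y := by
      apply Fin.ext
      simp only [num] at h
      omega
    rw [(Finite.equivFin _).injective this]

/-- The parents of a number. -/
noncomputable def par (p : X → Y × Y) (i : ℕ) : Finset ℕ := by
  classical
  exact if h : ∃ x : X, num Y X (Sum.inr x) = i then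
    {num Y X (Sum.inl (p h.choose).1), num Y X (Sum.inl (p h.choose).2)}
    else ∅

lemma par_inr (p : X → Y × Y) (x : X) : par p (num Y X (Sum.inr x)) =
    {num Y X (Sum.inl (p x).1), num Y X (Sum.inl (p x).2)} := by
  have h : ∃ y : X, num Y X (Sum.inr y) = num Y X (Sum.inr x) := ⟨x, rfl⟩
  have h2 : h.choose = x := Sum.inr_injective (num_inj h.choose_spec)
  unfold par
  rw [dif_pos h, h2]

lemma par_cases (p : X → Y × Y) (i : ℕ) :
    par p i = ∅ ∨ ∃ x : X, num Y X (Sum.inr x) = i := by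
  by_cases h : ∃ x : X, num Y X (Sum.inr x) = i
  · exact Or.inr h
  · left
    unfold par
    rw [dif_neg h]

lemma par_inl (p : X → Y × Y) (y : Y) : par p (num Y X (Sum.inl y)) = ∅ := by
  rcases par_cases p (num Y X (Sum.inl y)) with h | ⟨x, hx⟩
  · exact h
  · have := num_inj hx
    simp at this

lemma mem_par {p : X → Y × Y} {i j : ℕ} (h : j ∈ par p i) : ∃ (x : X) (y : Y),
    num Y X (Sum.inr x) = i ∧ j = num Y X (Sum.inl y) := by
  rcases par_cases p i with h0 | ⟨x, hx⟩
  · rw [h0] at h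
    exact absurd h (Finset.notMem_empty _)
  · rw [← hx, par_inr, Finset.mem_insert, Finset.mem_singleton] at h
    rcases h with h | h
    · exact ⟨x, _, hx, h⟩
    · exact ⟨x, _, hx, h⟩

lemma pairLayered_of (p : X → Y × Y) (G : SimpleGraph (Y ⊕ X))
    (hG : ∀ v w, G.Adj v w → (∃ x, (v = Sum.inl (p x).1 ∨ v = Sum.inl (p x).2) ∧ w = Sum.inr x) ∨
      ∃ x, (w = Sum.inl (p x).1 ∨ w = Sum.inl (p x).2) ∧ v = Sum.inr x) : PairLayered 1 G := by
  classical
  have key : ∀ (v w : Y ⊕ X), (∃ x, (v = Sum.inl (p x).1 ∨ v = Sum.inl (p x).2) ∧ w = Sum.inr x) →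
      num Y X v ∈ par p (num Y X w) := by
    rintro v w ⟨x, h | h, rfl⟩
    · rw [h, par_inr]
      exact Finset.mem_insert_self _ _
    · rw [h, par_inr]
      exact Finset.mem_insert_of_mem (Finset.mem_singleton_self _)
  refine ⟨fun _ => 0, fun _ => Nat.zero_lt_one, fun v => ?_, fun i => ?_⟩
  · have : {w | G.Adj v w ∧ 0 < 0} = (∅ : Set (Y ⊕ X)) := by
      ext w
      simp
    rw [this, Set.ncard_empty]
    exact Nat.zero_le _
  · refine ⟨fun v => num Y X v.1, par p, fun _ => 0, ?_, ?_, ?_, fun _ => Nat.zero_lt_one,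
      fun _ _ _ _ => rfl, ?_, ?_, ?_⟩
    · intro i j hj
      obtain ⟨x, y, hx, hy⟩ := mem_par hj
      rw [← hx, hy]
      exact lt_of_lt_of_le (num_inl_lt y) (le_num_inr x)
    · intro i
      rcases par_cases p i with h | ⟨x, hx⟩
      · rw [h]
        exact Nat.zero_le _
      · rw [← hx, par_inr]
        exact Finset.card_le_two
    · intro i j hj k hk
      obtain ⟨_, y, _, hy⟩ := mem_par hj
      obtain ⟨_, y', _, hy'⟩ := mem_par hk
      rw [hy, hy', par_inl, par_inl]
    · intro j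
      rw [Set.ncard_le_one_iff]
      intro a b ha hb
      exact Subtype.ext (num_inj (ha.trans hb.symm))
    · rintro ⟨v, hv⟩ ⟨w, hw⟩ hvw
      rcases hG v w hvw with h | h
      · exact Or.inr (Or.inr (Or.inl (key v w h)))
      · exact Or.inr (Or.inl (key w v h))
    · intro i
      refine le_trans (le_of_eq ?_) (Nat.zero_le 1)
      have : ∀ A : Set ℕ, A = ∅ → A.ncard = 0 := fun A hA => by rw [hA, Set.ncard_empty]
      apply this
      ext j
      simp

end Abstract

lemma gr_pairLayered : PairLayered 1 Gr := by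
  apply pairLayered_of (fun x : Phi × Psi × Gs => (Sum.inl x.1, Sum.inr (x.1, x.2.1))) Gr
  have key : ∀ x y : Vx, Parent x y → ∃ z : Phi × Psi × Gs,
      (x = Sum.inl (Sum.inl z.1) ∨ x = Sum.inl (Sum.inr (z.1, z.2.1))) ∧ y = Sum.inr z := by
    intro x y h
    rcases x with (φ | ⟨φ, ψ⟩) | x <;> rcases y with y | ⟨φ', ψ', g⟩
    · exact absurd h id
    · have h' : φ = φ' := h
      subst h'
      exact ⟨(φ, ψ', g), Or.inl rfl, rfl⟩
    · exact absurd h id
    · have h' : φ = φ' ∧ ψ = ψ' := h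
      obtain ⟨rfl, rfl⟩ := h'
      exact ⟨(φ, ψ, g), Or.inr rfl, rfl⟩
    · exact absurd h id
    · exact absurd h id
  rintro v w (h | h)
  · exact Or.inl (key v w h)
  · exact Or.inr (key w v h)

end Pool.Agent.Lib.MP_994fee_co.Pair.Sharp
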